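import Pool.Agent.N829.PR.Main

/-!
# Groups whose finite quotients are quotients of `SL_n(ℤ)`: arbitrary coefficient rings
-/

set_option autoImplicit false

namespace Pool.Agent.N829.PR

open Module Matrix Pool.Agent.H185.ZM

variable {n : ℕ} {Λ : Type*} [Group Λ]

/-- linear actions on modules with few generators are trivial -/
theorem linear (hn : 3 ≤ n) (hΛ : FQ n Λ) (hfg : Group.FG Λ) {R : Type*} [CommRing R]
    {M : Type*} [AddCommGroup M] [Module R M] {m : ℕ} (hm : m < n) (x : Fin m → M)
    (hx : Submodule.span R (Set.range x) = ⊤) (ρ : Λ →* Module.End R M) : ρ = 1 := by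
  classical
  ext1 g
  apply LinearMap.ext
  intro y
  rw [Group.fg_iff_monoid_fg, Monoid.fg_iff] at hfg
  obtain ⟨S, hS, hSf⟩ := hfg
  have hex : ∀ w : M, ∃ c : Fin m → R, ∑ a, c a • x a = w := by
    intro w
    have hw : w ∈ Submodule.span R (Set.range x) := by rw [hx]; trivial
    exact (Submodule.mem_span_range_iff_exists_fun R).1 hw
  choose co hco using hex
  let C : Set R := (⋃ s ∈ S, ⋃ b : Fin m, Set.range (co (ρ s (x b)))) ∪ Set.range (co y)
  have hCf : C.Finite := by
    apply Set.Finite.union
    · apply Set.Finite.biUnion hSf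
      intro s _
      exact Set.finite_iUnion fun b => Set.finite_range _
    · exact Set.finite_range _
  let R₀ : Subalgebra ℤ R := Algebra.adjoin ℤ C
  have hR₀ : Algebra.FiniteType ℤ R₀ := by
    rw [← Subalgebra.fg_iff_finiteType]
    exact Subalgebra.fg_def.2 ⟨C, hCf, rfl⟩
  have hsm : ∀ (r : R₀) (w : M), r • w = (r : R) • w := fun r w => rfl
  let M₀ : Submodule R₀ M := Submodule.span R₀ (Set.range x)
  have hmem : ∀ w : M, (∀ a, co w a ∈ C) → w ∈ M₀ := by
    intro w hw
    rw [← hco w]
    apply Submodule.sum_mem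
    intro a _
    have h1 : (⟨co w a, Algebra.subset_adjoin (hw a)⟩ : R₀) • x a ∈ M₀ :=
      Submodule.smul_mem _ _ (Submodule.subset_span ⟨a, rfl⟩)
    exact h1
  have hy : y ∈ M₀ := hmem y fun a => Or.inr ⟨a, rfl⟩
  have hst : ∀ h : Λ, ∀ w ∈ M₀, ρ h w ∈ M₀ := by
    intro h
    have hh : h ∈ Submonoid.closure S := by rw [hS]; trivial
    induction hh using Submonoid.closure_induction with
    | mem s hs =>
      intro w hw
      induction hw using Submodule.span_induction with
      | mem w hw =>
        obtain ⟨b, rfl⟩ := hw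
        apply hmem
        intro a
        exact Or.inl (Set.mem_biUnion hs (Set.mem_iUnion.2 ⟨b, a, rfl⟩))
      | zero => rw [map_zero]; exact Submodule.zero_mem _
      | add w z _ _ hw hz => rw [map_add]; exact Submodule.add_mem _ hw hz
      | smul r w _ hw =>
        rw [hsm, map_smul, ← hsm]
        exact Submodule.smul_mem _ _ hw
    | one => intro w hw; rwa [map_one, Module.End.one_apply]
    | mul h k _ _ hh hk =>
      intro w hw
      rw [map_mul, Module.End.mul_apply]
      exact hh _ (hk _ hw)
  let ρ₀ : Λ →* Module.End R₀ M₀ :=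
    { toFun := fun h => ((ρ h).restrictScalars R₀).restrict (hst h)
      map_one' := by
        apply LinearMap.ext
        intro w
        apply Subtype.ext
        show ρ 1 (w : M) = w
        rw [map_one, Module.End.one_apply]
      map_mul' := by
        intro h k
        apply LinearMap.ext
        intro w
        apply Subtype.ext
        show ρ (h * k) (w : M) = ρ h (ρ k w)
        rw [map_mul, Module.End.mul_apply] }
  have hx₀ : Submodule.span R₀ (Set.range fun a : Fin m =>
      (⟨x a, Submodule.subset_span ⟨a, rfl⟩⟩ : M₀)) = ⊤ := by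
    apply Submodule.map_injective_of_injective M₀.injective_subtype
    rw [Submodule.map_span, ← Set.range_comp, Submodule.map_top, Submodule.range_subtype]
    rfl
  have h1 := fg_case hn hΛ hm _ hx₀ ρ₀ g ⟨y, hy⟩
  exact congrArg Subtype.val h1

/-- homomorphisms to commutative groups are trivial -/
theorem perfect (hn : 3 ≤ n) (hΛ : FQ n Λ) (hfg : Group.FG Λ) {A : Type*} [CommGroup A]
    (f : Λ →* A) : f = 1 := by
  let ρ : Λ →* Module.End (MonoidAlgebra ℤ A) (MonoidAlgebra ℤ A) :=
    { toFun := fun g => LinearMap.mulLeft (MonoidAlgebra ℤ A) (MonoidAlgebra.of ℤ A (f g))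
      map_one' := by
        apply LinearMap.ext
        intro w
        show MonoidAlgebra.of ℤ A (f 1) * w = w
        rw [map_one, map_one, one_mul]
      map_mul' := by
        intro g h
        apply LinearMap.ext
        intro w
        show MonoidAlgebra.of ℤ A (f (g * h)) * w =
          MonoidAlgebra.of ℤ A (f g) * (MonoidAlgebra.of ℤ A (f h) * w)
        rw [map_mul, map_mul, mul_assoc] }
  have h1 := linear hn hΛ hfg (m := 1) (by omega) (fun _ : Fin 1 => (1 : MonoidAlgebra ℤ A))
    (by
      rw [eq_top_iff]
      intro w _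
      have : w = w • (1 : MonoidAlgebra ℤ A) := by simp
      rw [this]
      exact Submodule.smul_mem _ _ (Submodule.subset_span ⟨0, rfl⟩)) ρ
  ext1 g
  have h2 := LinearMap.congr_fun (DFunLike.congr_fun h1 g) 1
  have h3 : MonoidAlgebra.of ℤ A (f g) = MonoidAlgebra.of ℤ A 1 := by
    have h4 : MonoidAlgebra.of ℤ A (f g) * 1 = (1 : MonoidAlgebra ℤ A) := h2
    rw [mul_one] at h4
    rw [h4, map_one]
  exact MonoidAlgebra.of_injective h3

end Pool.Agent.N829.PR
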