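import Mathlib

/-!
# Heisenberg relations in small dimension
-/

set_option autoImplicit false

namespace Pool.Agent.N829.PR

open Module

variable {F : Type*} [Field F] [IsAlgClosed F] {V : Type*} [AddCommGroup V] [Module F V]
  [FiniteDimensional F V]

/-- a common eigenvector -/
theorem common (l : List (Module.End F V)) : ∀ (W : Submodule F V), W ≠ ⊥ →
    (∀ f ∈ l, ∀ w ∈ W, f w ∈ W) →
    (∀ f ∈ l, ∀ g ∈ l, ∀ w ∈ W, f (g w) = g (f w)) →
    ∃ w ∈ W, w ≠ 0 ∧ ∀ f ∈ l, ∃ μ : F, f w = μ • w := by
  induction l with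
  | nil =>
    intro W hW _ _
    obtain ⟨w, hw, h0⟩ := Submodule.exists_mem_ne_zero_of_ne_bot hW
    exact ⟨w, hw, h0, by simp⟩
  | cons f l ih =>
    intro W hW hst hco
    have hf : ∀ w ∈ W, f w ∈ W := hst f (by simp)
    have : Nontrivial W := Submodule.nontrivial_iff_ne_bot.2 hW
    obtain ⟨μ, hμ⟩ := Module.End.exists_eigenvalue (f.restrict hf)
    obtain ⟨r, hr⟩ := hμ.exists_hasEigenvector
    have hr1 : f r = μ • (r : V) := by
      have := hr.apply_eq_smul
      have h2 := congrArg Subtype.val this
      simpa using h2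
    have hr0 : (r : V) ≠ 0 := by
      intro h
      exact hr.2 (Subtype.ext h)
    obtain ⟨w, hw, h0, hw2⟩ := ih (W ⊓ LinearMap.ker (f - μ • (1 : Module.End F V))) (by
        intro h
        have : (r : V) ∈ W ⊓ LinearMap.ker (f - μ • (1 : Module.End F V)) :=
          ⟨r.2, by
            show (r : V) ∈ LinearMap.ker (f - μ • (1 : Module.End F V))
            rw [LinearMap.mem_ker]; simp [hr1]⟩
        rw [h] at this
        exact hr0 ((Submodule.mem_bot F).1 this))
      (by
        intro g hg w hw
        refine ⟨hst g (by simp [hg]) w hw.1, ?_⟩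
        have h1 : f w = μ • w := by
          have := LinearMap.mem_ker.1 hw.2
          simpa [sub_eq_zero] using this
        show g w ∈ LinearMap.ker (f - μ • (1 : Module.End F V))
        rw [LinearMap.mem_ker]
        simp only [LinearMap.sub_apply, LinearMap.smul_apply, Module.End.one_apply]
        rw [hco f (by simp) g (by simp [hg]) w hw.1, h1, map_smul, sub_self])
      (by
        intro g hg h hh w hw
        exact hco g (by simp [hg]) h (by simp [hh]) w hw.1)
    refine ⟨w, hw.1, h0, ?_⟩
    intro g hg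
    rcases List.mem_cons.1 hg with rfl | hg
    · refine ⟨μ, ?_⟩
      have := LinearMap.mem_ker.1 hw.2
      simpa [sub_eq_zero] using this
    · exact hw2 g hg

/-- the relations -/
structure Hs {F V κ : Type*} [Field F] [AddCommGroup V] [Module F V]
    (a b : κ → Module.End F V) (c : Module.End F V) : Prop where
  aa : ∀ j k v, a j (a k v) = a k (a j v)
  bb : ∀ j k v, b j (b k v) = b k (b j v)
  ab : ∀ j k, j ≠ k → ∀ v, a j (b k v) = b k (a j v)
  abc : ∀ j v, a j (b j v) = c (b j (a j v))
  ac : ∀ j v, a j (c v) = c (a j v)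
  bc : ∀ j v, b j (c v) = c (b j v)
  ia : ∀ j v, a j v = 0 → v = 0
  ib : ∀ j v, b j v = 0 → v = 0

variable {κ : Type*} [Fintype κ] {a b : κ → Module.End F V} {c : Module.End F V}

/-- an eigenvalue `≠ 1` of `c` forces `c` to be scalar -/
theorem scalar_of_ne (h : Hs a b c) (hd : finrank F V < Fintype.card κ + 2) {l : F} (hl : l ≠ 1)
    {v₀ : V} (hv₀ : v₀ ≠ 0) (he : c v₀ = l • v₀) : ∀ v, c v = l • v := by
  classical
  set U : Submodule F V := LinearMap.ker (c - l • (1 : Module.End F V)) with hU
  have memU : ∀ v, v ∈ U ↔ c v = l • v := by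
    intro v
    rw [hU, LinearMap.mem_ker]
    simp [sub_eq_zero]
  obtain ⟨v, hvU, hv0, hv⟩ := common ((Finset.univ : Finset κ).toList.map a) U (by
      intro h0
      have : v₀ ∈ U := (memU v₀).2 he
      rw [h0] at this
      exact hv₀ ((Submodule.mem_bot F).1 this))
    (by
      intro f hf w hw
      obtain ⟨j, _, rfl⟩ := List.mem_map.1 hf
      rw [memU] at hw ⊢
      rw [← h.ac, hw, map_smul])
    (by
      intro f hf g hg w _
      obtain ⟨j, _, rfl⟩ := List.mem_map.1 hf
      obtain ⟨k, _, rfl⟩ := List.mem_map.1 hg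
      exact h.aa j k w)
  have hv' : ∀ j, ∃ μ : F, a j v = μ • v := fun j => hv (a j) (List.mem_map.2 ⟨j, by simp, rfl⟩)
  choose α hα using hv'
  have hcv : c v = l • v := (memU v).1 hvU
  have hα0 : ∀ j, α j ≠ 0 := by
    intro j h0
    have := hα j
    rw [h0, zero_smul] at this
    exact hv0 (h.ia j v this)
  let w : Option κ → V := fun o => o.elim v (fun k => b k v)
  have hwU : ∀ o, w o ∈ U := by
    intro o
    cases o with
    | none => exact hvU
    | some k =>
      show b k v ∈ U
      rw [memU, ← h.bc, hcv, map_smul]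
  have hli : LinearIndependent F w := by
    rw [Fintype.linearIndependent_iff]
    intro g hg
    rw [Fintype.sum_option] at hg
    have hg' : g none • v + ∑ k, g (some k) • b k v = 0 := hg
    have hsome : ∀ j, g (some j) = 0 := by
      intro j
      have h1 : (a j - α j • (1 : Module.End F V)) (g none • v + ∑ k, g (some k) • b k v) = 0 := by
        rw [hg', map_zero]
      rw [map_add, map_smul, map_sum] at h1
      have h2 : (a j - α j • (1 : Module.End F V)) v = 0 := by simp [hα j]
      rw [h2, smul_zero, zero_add, Finset.sum_eq_single j] at h1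
      · have h3 : (a j - α j • (1 : Module.End F V)) (g (some j) • b j v) =
            (g (some j) * (l - 1) * α j) • b j v := by
          simp only [LinearMap.sub_apply, LinearMap.smul_apply, Module.End.one_apply, map_smul]
          rw [h.abc, hα j, map_smul, map_smul, ← h.bc, hcv, map_smul]
          module
        rw [h3, smul_eq_zero] at h1
        rcases h1 with h1 | h1
        · rcases mul_eq_zero.1 h1 with h1 | h1
          · rcases mul_eq_zero.1 h1 with h1 | h1
            · exact h1
            · exact absurd (sub_eq_zero.1 h1) hl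
          · exact absurd h1 (hα0 j)
        · exact absurd (h.ib j v h1) hv0
      · intro k _ hk
        simp only [LinearMap.sub_apply, LinearMap.smul_apply, Module.End.one_apply, map_smul]
        rw [h.ab j k (Ne.symm hk), hα j, map_smul]
        module
      · simp
    intro o
    cases o with
    | none =>
      simp only [hsome, zero_smul, Finset.sum_const_zero, add_zero, smul_eq_zero] at hg'
      exact hg'.resolve_right hv0
    | some k => exact hsome k
  have hcard : Fintype.card κ + 1 ≤ finrank F U := by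
    have h1 := finrank_span_eq_card hli
    rw [Fintype.card_option] at h1
    rw [← h1]
    apply Submodule.finrank_mono
    rw [Submodule.span_le]
    rintro _ ⟨o, rfl⟩
    exact hwU o
  have htop : U = ⊤ := by
    apply Submodule.eq_top_of_finrank_eq
    have := Submodule.finrank_le U
    omega
  intro x
  rw [← memU, htop]
  trivial

/-- if `1` is the only eigenvalue of `c`, then `c = 1` -/
theorem one_of_unip (h : Hs a b c) (hd : finrank F V < Fintype.card κ + 2)
    (h1 : ∀ (μ : F) (v : V), v ≠ 0 → c v = μ • v → μ = 1) : c = 1 := by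
  classical
  by_contra hc
  set N : Module.End F V := c - 1 with hN
  have hNv : ∀ v, N v = c v - v := by intro v; simp [hN]
  have hN0 : N ≠ 0 := by
    intro h0
    exact hc (sub_eq_zero.1 h0)
  have hNa : ∀ j v, N (a j v) = a j (N v) := by
    intro j v
    rw [hNv, hNv, map_sub, h.ac]
  have hNb : ∀ j v, N (b j v) = b j (N v) := by
    intro j v
    rw [hNv, hNv, map_sub, h.bc]
  set W : Submodule F V := LinearMap.range N ⊓ LinearMap.ker N with hW
  have hW0 : W ≠ ⊥ := by
    have hne : Nontrivial (LinearMap.range N) := by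
      rw [Submodule.nontrivial_iff_ne_bot]
      intro h0
      exact hN0 (LinearMap.range_eq_bot.1 h0)
    have hst : ∀ w ∈ LinearMap.range N, c w ∈ LinearMap.range N := by
      rintro _ ⟨w, rfl⟩
      refine ⟨c w, ?_⟩
      rw [hNv, hNv, map_sub]
    obtain ⟨μ, hμ⟩ := Module.End.exists_eigenvalue (c.restrict hst)
    obtain ⟨r, hr⟩ := hμ.exists_hasEigenvector
    have hr1 : c r = μ • (r : V) := by
      have := hr.apply_eq_smul
      have h2 := congrArg Subtype.val this
      simpa using h2
    have hr0 : (r : V) ≠ 0 := by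
      intro h
      exact hr.2 (Subtype.ext h)
    have hμ1 := h1 μ r hr0 hr1
    intro h0
    have : (r : V) ∈ W := ⟨r.2, by
      show (r : V) ∈ LinearMap.ker N
      rw [LinearMap.mem_ker, hNv, hr1, hμ1, one_smul, sub_self]⟩
    rw [h0] at this
    exact hr0 ((Submodule.mem_bot F).1 this)
  have hcW : ∀ w ∈ W, c w = w := by
    intro w hw
    have := LinearMap.mem_ker.1 hw.2
    rw [hNv] at this
    exact sub_eq_zero.1 this
  have haW : ∀ j, ∀ w ∈ W, a j w ∈ W := by
    rintro j w ⟨⟨x, hx⟩, hw2⟩
    refine ⟨⟨a j x, by rw [hNa, hx]⟩, ?_⟩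
    show a j w ∈ LinearMap.ker N
    rw [LinearMap.mem_ker, hNa, LinearMap.mem_ker.1 hw2, map_zero]
  have hbW : ∀ j, ∀ w ∈ W, b j w ∈ W := by
    rintro j w ⟨⟨x, hx⟩, hw2⟩
    refine ⟨⟨b j x, by rw [hNb, hx]⟩, ?_⟩
    show b j w ∈ LinearMap.ker N
    rw [LinearMap.mem_ker, hNb, LinearMap.mem_ker.1 hw2, map_zero]
  have habW : ∀ j k, ∀ w ∈ W, a j (b k w) = b k (a j w) := by
    intro j k w hw
    by_cases hjk : j = k
    · subst hjk
      rw [h.abc, hcW _ (hbW j _ (haW j _ hw))]
    · exact h.ab j k hjk w
  obtain ⟨u, huW, hu0, hu⟩ := common (((Finset.univ : Finset κ).toList.map a) ++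
      ((Finset.univ : Finset κ).toList.map b)) W hW0
    (by
      intro f hf w hw
      rcases List.mem_append.1 hf with hf | hf
      · obtain ⟨j, _, rfl⟩ := List.mem_map.1 hf
        exact haW j w hw
      · obtain ⟨j, _, rfl⟩ := List.mem_map.1 hf
        exact hbW j w hw)
    (by
      intro f hf g hg w hw
      rcases List.mem_append.1 hf with hf | hf
      · obtain ⟨j, _, rfl⟩ := List.mem_map.1 hf
        rcases List.mem_append.1 hg with hg | hg
        · obtain ⟨k, _, rfl⟩ := List.mem_map.1 hg
          exact h.aa j k w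
        · obtain ⟨k, _, rfl⟩ := List.mem_map.1 hg
          exact habW j k w hw
      · obtain ⟨j, _, rfl⟩ := List.mem_map.1 hf
        rcases List.mem_append.1 hg with hg | hg
        · obtain ⟨k, _, rfl⟩ := List.mem_map.1 hg
          exact (habW k j w hw).symm
        · obtain ⟨k, _, rfl⟩ := List.mem_map.1 hg
          exact h.bb j k w)
  have hu1 : ∀ j, ∃ μ : F, a j u = μ • u := fun j =>
    hu (a j) (List.mem_append.2 (Or.inl (List.mem_map.2 ⟨j, by simp, rfl⟩)))
  have hu2 : ∀ j, ∃ μ : F, b j u = μ • u := fun j =>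
    hu (b j) (List.mem_append.2 (Or.inr (List.mem_map.2 ⟨j, by simp, rfl⟩)))
  choose α hα using hu1
  choose β hβ using hu2
  have hα0 : ∀ j, α j ≠ 0 := by
    intro j h0
    have := hα j
    rw [h0, zero_smul] at this
    exact hu0 (h.ia j u this)
  have hβ0 : ∀ j, β j ≠ 0 := by
    intro j h0
    have := hβ j
    rw [h0, zero_smul] at this
    exact hu0 (h.ib j u this)
  obtain ⟨v, hv⟩ := huW.1
  have hcv : c v = v + u := by
    rw [← hv, hNv]; abel
  have hNu : N u = 0 := LinearMap.mem_ker.1 huW.2
  -- the operators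
  let x : κ → Module.End F V := fun j => a j - α j • (1 : Module.End F V)
  let y : κ → Module.End F V := fun j => b j - β j • (1 : Module.End F V)
  have hx : ∀ j w, x j w = a j w - α j • w := fun j w => by simp [x]
  have hy : ∀ j w, y j w = b j w - β j • w := fun j w => by simp [y]
  have hxu : ∀ j, x j u = 0 := fun j => by rw [hx, hα, sub_self]
  have hyu : ∀ j, y j u = 0 := fun j => by rw [hy, hβ, sub_self]
  have hxx : ∀ j k w, x j (x k w) = x k (x j w) := by
    intro j k w
    simp only [hx, map_sub, map_smul]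
    rw [h.aa j k]
    module
  have hyy : ∀ j k w, y j (y k w) = y k (y j w) := by
    intro j k w
    simp only [hy, map_sub, map_smul]
    rw [h.bb j k]
    module
  have hxy : ∀ j k, j ≠ k → ∀ w, x j (y k w) = y k (x j w) := by
    intro j k hjk w
    simp only [hx, hy, map_sub, map_smul]
    rw [h.ab j k hjk]
    module
  have hxyv : ∀ j, x j (y j v) = y j (x j v) + (α j * β j) • u := by
    intro j
    have e1 : a j (b j v) = b j (a j v) + (α j * β j) • u := by
      have h2 : c (b j (a j v)) = b j (a j v) + N (b j (a j v)) := by rw [hNv]; abel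
      rw [h.abc, h2, hNb, hNa, hv, hα, map_smul, hβ, smul_smul]
    simp only [hx, hy, map_sub, map_smul]
    rw [e1]
    module
  let P : (κ → F) → Module.End F V := fun p => ∑ j, p j • x j
  let Q : (κ → F) → Module.End F V := fun q => ∑ j, q j • y j
  have PP : ∀ p q, P p (P q v) = P q (P p v) := by
    intro p q
    simp only [P, LinearMap.sum_apply, LinearMap.smul_apply, map_sum, map_smul, Finset.smul_sum,
      smul_smul]
    rw [Finset.sum_comm]
    refine Finset.sum_congr rfl fun j _ => Finset.sum_congr rfl fun k _ => ?_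
    rw [hxx, mul_comm]
  have QQ : ∀ p q, Q p (Q q v) = Q q (Q p v) := by
    intro p q
    simp only [Q, LinearMap.sum_apply, LinearMap.smul_apply, map_sum, map_smul, Finset.smul_sum,
      smul_smul]
    rw [Finset.sum_comm]
    refine Finset.sum_congr rfl fun j _ => Finset.sum_congr rfl fun k _ => ?_
    rw [hyy, mul_comm]
  have PQ : ∀ p q, P p (Q q v) = Q q (P p v) + (∑ j, p j * q j * (α j * β j)) • u := by
    intro p q
    have e1 : P p (Q q v) = ∑ j, ∑ k, (p j * q k) • x j (y k v) := by
      simp only [P, Q, LinearMap.sum_apply, LinearMap.smul_apply, map_sum, map_smul,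
        Finset.smul_sum, smul_smul]
      rw [Finset.sum_comm]
      refine Finset.sum_congr rfl fun j _ => Finset.sum_congr rfl fun k _ => ?_
      rw [mul_comm]
    have e2 : Q q (P p v) = ∑ j, ∑ k, (p j * q k) • y k (x j v) := by
      simp only [P, Q, LinearMap.sum_apply, LinearMap.smul_apply, map_sum, map_smul,
        Finset.smul_sum, smul_smul]
    rw [e1, e2, Finset.sum_smul, ← Finset.sum_add_distrib]
    refine Finset.sum_congr rfl fun j _ => ?_
    have e3 : ∀ k, (p j * q k) • x j (y k v) = (p j * q k) • y k (x j v) +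
        (if j = k then (p j * q j * (α j * β j)) • u else 0) := by
      intro k
      by_cases hjk : j = k
      · subst hjk
        rw [if_pos rfl, hxyv, smul_add, smul_smul]
      · rw [if_neg hjk, add_zero, hxy j k hjk]
    rw [Finset.sum_congr rfl fun k _ => e3 k, Finset.sum_add_distrib, Finset.sum_ite_eq]
    simp
  have Pu : ∀ p, P p u = 0 := by
    intro p
    simp [P, hxu]
  have Qu : ∀ q, Q q u = 0 := by
    intro q
    simp [Q, hyu]
  let Φ : ((κ → F) × (κ → F)) →ₗ[F] V :=
    { toFun := fun h => P h.1 v + Q h.2 v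
      map_add' := by
        intro h h'
        simp only [P, Q, Prod.fst_add, Prod.snd_add, Pi.add_apply, add_smul,
          Finset.sum_add_distrib, LinearMap.add_apply]
        abel
      map_smul' := by
        intro t h
        simp only [P, Q, Prod.smul_fst, Prod.smul_snd, Pi.smul_apply, smul_eq_mul, mul_smul,
          RingHom.id_apply, smul_add, LinearMap.sum_apply, LinearMap.smul_apply,
          Finset.smul_sum] }
  have hΦ : ∀ h, Φ h = P h.1 v + Q h.2 v := fun h => rfl
  let B : ((κ → F) × (κ → F)) →ₗ[F] ((κ → F) × (κ → F)) →ₗ[F] F :=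
    LinearMap.mk₂ F (fun h h' => ∑ j, (h.1 j * h'.2 j - h'.1 j * h.2 j) * (α j * β j))
      (by
        intro h h' k
        rw [← Finset.sum_add_distrib]
        refine Finset.sum_congr rfl fun j _ => ?_
        simp only [Prod.fst_add, Prod.snd_add, Pi.add_apply]
        ring)
      (by
        intro t h k
        rw [smul_eq_mul, Finset.mul_sum]
        refine Finset.sum_congr rfl fun j _ => ?_
        simp only [Prod.smul_fst, Prod.smul_snd, Pi.smul_apply, smul_eq_mul]
        ring)
      (by
        intro h h' k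
        rw [← Finset.sum_add_distrib]
        refine Finset.sum_congr rfl fun j _ => ?_
        simp only [Prod.fst_add, Prod.snd_add, Pi.add_apply]
        ring)
      (by
        intro t h k
        rw [smul_eq_mul, Finset.mul_sum]
        refine Finset.sum_congr rfl fun j _ => ?_
        simp only [Prod.smul_fst, Prod.smul_snd, Pi.smul_apply, smul_eq_mul]
        ring)
  have hB : ∀ h h', B h h' = ∑ j, (h.1 j * h'.2 j - h'.1 j * h.2 j) * (α j * β j) :=
    fun h h' => rfl
  have hBinj : Function.Injective B := by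
    rw [← LinearMap.ker_eq_bot, LinearMap.ker_eq_bot']
    intro h hh
    have e1 : ∀ j, h.1 j = 0 := by
      intro j
      have h3 : B h (0, Pi.single j 1) = 0 := by rw [hh]; rfl
      rw [hB, Finset.sum_eq_single j] at h3
      · simp only [Pi.single_eq_same, mul_one, Pi.zero_apply, zero_mul, sub_zero] at h3
        exact (mul_eq_zero.1 h3).resolve_right (mul_ne_zero (hα0 j) (hβ0 j))
      · intro k _ hk
        simp [Pi.single_eq_of_ne hk]
      · simp
    have e2 : ∀ j, h.2 j = 0 := by
      intro j
      have h3 : B h (Pi.single j 1, 0) = 0 := by rw [hh]; rfl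
      rw [hB, Finset.sum_eq_single j] at h3
      · simp only [Pi.single_eq_same, one_mul, Pi.zero_apply, mul_zero, zero_sub] at h3
        exact neg_eq_zero.1 ((mul_eq_zero.1 h3).resolve_right (mul_ne_zero (hα0 j) (hβ0 j)))
      · intro k _ hk
        simp [Pi.single_eq_of_ne hk]
      · simp
    exact Prod.ext (funext e1) (funext e2)
  let Ψ : ((κ → F) × (κ → F)) →ₗ[F] (V ⧸ Submodule.span F {u}) :=
    (Submodule.mkQ (Submodule.span F {u})).comp Φ
  have hker : ∀ h, h ∈ LinearMap.ker Ψ → ∃ γ : F, γ • u = Φ h := by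
    intro h hh
    rw [LinearMap.mem_ker] at hh
    have h3 : Φ h ∈ Submodule.span F {u} := by
      rw [← Submodule.Quotient.mk_eq_zero]
      exact hh
    exact Submodule.mem_span_singleton.1 h3
  have hiso : ∀ h ∈ LinearMap.ker Ψ, ∀ h' ∈ LinearMap.ker Ψ, B h h' = 0 := by
    intro h hh h' hh'
    obtain ⟨γ, hγ⟩ := hker h hh
    obtain ⟨γ', hγ'⟩ := hker h' hh'
    have f1 : P h.1 (Φ h') + Q h.2 (Φ h') = 0 := by
      rw [← hγ', map_smul, map_smul, Pu, Qu]; simp
    have f2 : P h'.1 (Φ h) + Q h'.2 (Φ h) = 0 := by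
      rw [← hγ, map_smul, map_smul, Pu, Qu]; simp
    have f3 : (P h.1 (Φ h') + Q h.2 (Φ h')) - (P h'.1 (Φ h) + Q h'.2 (Φ h)) = B h h' • u := by
      have f4 : B h h' = (∑ j, h.1 j * h'.2 j * (α j * β j)) -
          ∑ j, h'.1 j * h.2 j * (α j * β j) := by
        rw [hB, ← Finset.sum_sub_distrib]
        refine Finset.sum_congr rfl fun j _ => ?_
        ring
      rw [f4, hΦ, hΦ]
      simp only [map_add]
      rw [PP h.1 h'.1, QQ h.2 h'.2, PQ h.1 h'.2, PQ h'.1 h.2]
      module
    rw [f1, f2, sub_zero] at f3
    exact (smul_eq_zero.1 f3.symm).resolve_right hu0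
  have hdimL : finrank F (LinearMap.ker Ψ) ≤ Fintype.card κ := by
    have g1 : finrank F ((LinearMap.ker Ψ).map B) = finrank F (LinearMap.ker Ψ) :=
      (Submodule.equivMapOfInjective B hBinj (LinearMap.ker Ψ)).finrank_eq.symm
    have g2 : (LinearMap.ker Ψ).map B ≤ (LinearMap.ker Ψ).dualAnnihilator := by
      rintro _ ⟨h, hh, rfl⟩
      rw [Submodule.mem_dualAnnihilator]
      intro h' hh'
      exact hiso h hh h' hh'
    have g3 : finrank F ((LinearMap.ker Ψ).map B) ≤ finrank F (LinearMap.ker Ψ).dualAnnihilator :=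
      Submodule.finrank_mono g2
    have g4 := Subspace.finrank_add_finrank_dualAnnihilator_eq (LinearMap.ker Ψ)
    rw [Module.finrank_prod, Module.finrank_fintype_fun_eq_card] at g4
    have g5 : finrank F (LinearMap.ker Ψ) ≤ finrank F (LinearMap.ker Ψ).dualAnnihilator :=
      g1 ▸ g3
    have g6 : finrank F (LinearMap.ker Ψ) + finrank F (LinearMap.ker Ψ) ≤
        Fintype.card κ + Fintype.card κ :=
      (Nat.add_le_add_left g5 _).trans g4.le
    omega
  have hrn := LinearMap.finrank_range_add_finrank_ker Ψ
  rw [Module.finrank_prod, Module.finrank_fintype_fun_eq_card] at hrn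
  -- the descent of N
  let N' : (V ⧸ Submodule.span F {u}) →ₗ[F] V := Submodule.liftQ _ N (by
    rw [Submodule.span_le]
    rintro _ rfl
    exact hNu)
  have hr1 : LinearMap.range Ψ ≤ LinearMap.ker N' := by
    rintro _ ⟨h, rfl⟩
    rw [LinearMap.mem_ker]
    show N (Φ h) = 0
    have hNx : ∀ j w, N (x j w) = x j (N w) := by
      intro j w
      rw [hx, hx, map_sub, map_smul, hNa]
    have hNy : ∀ j w, N (y j w) = y j (N w) := by
      intro j w
      rw [hy, hy, map_sub, map_smul, hNb]
    have hNP : ∀ p w, N (P p w) = P p (N w) := by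
      intro p w
      simp only [P, LinearMap.sum_apply, LinearMap.smul_apply, map_sum, map_smul, hNx]
    have hNQ : ∀ p w, N (Q p w) = Q p (N w) := by
      intro p w
      simp only [Q, LinearMap.sum_apply, LinearMap.smul_apply, map_sum, map_smul, hNy]
    rw [hΦ, map_add, hNP, hNQ, hv, Pu, Qu, add_zero]
  have hlt : LinearMap.ker N' < ⊤ := by
    rw [lt_top_iff_ne_top]
    intro h0
    have : Submodule.mkQ (Submodule.span F {u}) v ∈ LinearMap.ker N' := by rw [h0]; trivial
    rw [LinearMap.mem_ker] at this
    have h4 : N v = 0 := this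
    exact hu0 (hv.symm.trans h4)
  have k1 := Submodule.finrank_mono hr1
  have k2 := Submodule.finrank_lt hlt.ne
  have k3 := Submodule.finrank_quotient_add_finrank (Submodule.span F {u})
  rw [finrank_span_singleton hu0] at k3
  omega

/-- in small dimension the centre acts by a scalar -/
theorem scalar (h : Hs a b c) (hd : finrank F V < Fintype.card κ + 2) :
    ∃ l : F, ∀ v, c v = l • v := by
  by_cases h1 : ∀ (μ : F) (v : V), v ≠ 0 → c v = μ • v → μ = 1
  · refine ⟨1, fun v => ?_⟩
    rw [one_of_unip h hd h1]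
    simp
  · push Not at h1
    obtain ⟨μ, v, hv, he, hμ⟩ := h1
    exact ⟨μ, scalar_of_ne h hd hμ hv he⟩

end Pool.Agent.N829.PR
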