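import Pool.Agent.N829.PR.SLn
import Pool.Agent.N829.PR.Res

/-!
# Groups whose finite quotients are quotients of `SL_n(ℤ)`: linear actions
-/

set_option autoImplicit false

namespace Pool.Agent.N829.PR

open Module Matrix Pool.Agent.H185.ZM

universe u v

variable {n : ℕ} {Λ : Type*} [Group Λ]

/-- every finite quotient of `Λ` is a quotient of `SL_n(ℤ)` -/
def FQ (n : ℕ) (Λ : Type*) [Group Λ] : Prop :=
  ∀ (Q : Type) [Group Q] [Finite Q], (∃ f : Λ →* Q, Function.Surjective f) →
    ∃ f : Matrix.SpecialLinearGroup (Fin n) ℤ →* Q, Function.Surjective f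

theorem transfer (hΛ : FQ n Λ) {R : Type*} [CommRing R] {M : Type*} [AddCommGroup M] [Module R M]
    [Finite M] (ρ : Λ →* Module.End R M) :
    ∃ τ : Matrix.SpecialLinearGroup (Fin n) ℤ →* Module.End R M, ∀ g, ∃ h, τ h = ρ g := by
  have hE : Finite (Module.End R M) := DFunLike.finite _
  let σ : Λ →* (Module.End R M)ˣ := ρ.toHomUnits
  have hS : Small.{0} σ.range := Countable.toSmall _
  let e : Shrink.{0} σ.range ≃* σ.range := Shrink.mulEquiv
  have hF : Finite (Shrink.{0} σ.range) := Finite.of_equiv _ e.symm.toEquiv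
  obtain ⟨f, hf⟩ := hΛ (Shrink.{0} σ.range)
    ⟨e.symm.toMonoidHom.comp σ.rangeRestrict,
      e.symm.surjective.comp σ.rangeRestrict_surjective⟩
  refine ⟨(Units.coeHom (Module.End R M)).comp (σ.range.subtype.comp (e.toMonoidHom.comp f)), ?_⟩
  intro g
  obtain ⟨h, hh⟩ := hf (e.symm (σ.rangeRestrict g))
  refine ⟨h, ?_⟩
  show ((e (f h) : σ.range) : (Module.End R M)ˣ).val = ρ g
  rw [hh, MulEquiv.apply_symm_apply]
  rfl

/-- finitely generated coefficient rings -/
theorem fg_case (hn : 3 ≤ n) (hΛ : FQ n Λ) {R : Type*} [CommRing R] [Algebra.FiniteType ℤ R]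
    {M : Type*} [AddCommGroup M] [Module R M] {m : ℕ} (hm : m < n) (x : Fin m → M)
    (hx : Submodule.span R (Set.range x) = ⊤) (ρ : Λ →* Module.End R M) (g : Λ) (y : M) :
    ρ g y = y := by
  by_contra hne
  have hz : ρ g y - y ≠ 0 := sub_ne_zero.2 hne
  set z := ρ g y - y with hzd
  have hNoe : IsNoetherianRing R := Algebra.FiniteType.isNoetherianRing ℤ R
  have hMf : Module.Finite R M :=
    ⟨⟨(Set.finite_range x).toFinset, by rw [Set.Finite.coe_toFinset]; exact hx⟩⟩
  have hann : (LinearMap.ker (LinearMap.toSpanSingleton R M z) : Ideal R) ≠ ⊤ := by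
    intro h
    have h1 : (1 : R) ∈ LinearMap.ker (LinearMap.toSpanSingleton R M z) := by rw [h]; trivial
    rw [LinearMap.mem_ker, LinearMap.toSpanSingleton_apply, one_smul] at h1
    exact hz h1
  obtain ⟨I, hI, hle⟩ := Ideal.exists_le_maximal _ hann
  have hk : ∃ k : ℕ, z ∉ I ^ k • (⊤ : Submodule R M) := by
    by_contra hall
    push Not at hall
    have h1 : z ∈ (⨅ i : ℕ, I ^ i • ⊤ : Submodule R M) := by
      rw [Submodule.mem_iInf]
      exact hall
    rw [Ideal.mem_iInf_smul_pow_eq_bot_iff] at h1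
    obtain ⟨r, hr⟩ := h1
    have h2 : (1 - (r : R)) ∈ I := by
      apply hle
      rw [LinearMap.mem_ker, LinearMap.toSpanSingleton_apply, sub_smul, one_smul, hr, sub_self]
    have h3 : (1 : R) ∈ I := by
      have := I.add_mem h2 r.2
      rwa [sub_add_cancel] at this
    exact hI.ne_top ((Ideal.eq_top_iff_one I).2 h3)
  obtain ⟨k, hk⟩ := hk
  -- finiteness
  have hf1 : Finite (R ⧸ I) := residue_finite R I
  have hf2 : Finite (R ⧸ I ^ k) := Ideal.finite_quotient_pow (IsNoetherian.noetherian I) k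
  have hspan : Submodule.span R (Set.range fun a =>
      (Submodule.Quotient.mk (x a) : M ⧸ (I ^ k • (⊤ : Submodule R M)))) = ⊤ := by
    have h1 := congrArg (Submodule.map (Submodule.mkQ (I ^ k • (⊤ : Submodule R M)))) hx
    rw [Submodule.map_span, Submodule.map_top, Submodule.range_mkQ, ← Set.range_comp] at h1
    exact h1
  have hf3 : Finite (M ⧸ (I ^ k • (⊤ : Submodule R M))) := by
    have hsurj : Function.Surjective (fun c : Fin m → (R ⧸ I ^ k) =>
        ∑ a, c a • (Submodule.Quotient.mk (x a) : M ⧸ (I ^ k • (⊤ : Submodule R M)))) := by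
      intro w
      have hw : w ∈ Submodule.span R (Set.range fun a =>
        (Submodule.Quotient.mk (x a) : M ⧸ (I ^ k • (⊤ : Submodule R M)))) := by
        rw [hspan]; trivial
      obtain ⟨c, hc⟩ := (Submodule.mem_span_range_iff_exists_fun R).1 hw
      refine ⟨fun a => Ideal.Quotient.mk _ (c a), ?_⟩
      rw [← hc]
      rfl
    exact Finite.of_surjective _ hsurj
  obtain ⟨τ, hτ⟩ := transfer hΛ ((red (I ^ k)).comp ρ)
  have hbot : I ^ k • (⊤ : Submodule R (M ⧸ (I ^ k • (⊤ : Submodule R M)))) = ⊥ := by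
    rw [eq_bot_iff, Submodule.smul_le]
    intro r hr w _
    obtain ⟨w, rfl⟩ := Submodule.Quotient.mk_surjective _ w
    rw [Submodule.mem_bot, ← Submodule.Quotient.mk_smul, Submodule.Quotient.mk_eq_zero]
    exact Submodule.smul_mem_smul hr trivial
  have hτ1 := sl_art hn hm _ hspan I k hbot τ
  obtain ⟨h, hh⟩ := hτ g
  rw [hτ1] at hh
  have h2 := LinearMap.congr_fun hh (Submodule.Quotient.mk y)
  have h3 : (Submodule.Quotient.mk y : M ⧸ (I ^ k • (⊤ : Submodule R M))) =
      Submodule.Quotient.mk (ρ g y) := h2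
  rw [eq_comm, Submodule.Quotient.eq] at h3
  exact hk h3

end Pool.Agent.N829.PR
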