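import Pool.Agent.N829.PR.Thur

/-!
# Smooth actions on manifolds of small dimension with a fixed point
-/

set_option autoImplicit false

namespace Pool.Agent.N829.PR

open Filter Topology Module
open scoped Manifold

variable {Λ : Type*} [Group Λ] {n : ℕ}

theorem germ (hn : 3 ≤ n) (hΛ : FQ n Λ) (hfg : Group.FG Λ) {𝕜 : Type*} [RCLike 𝕜]
    {E : Type*} [NormedAddCommGroup E] [NormedSpace 𝕜 E] [FiniteDimensional 𝕜 E]
    (hdim : finrank 𝕜 E < n) (F : Λ → E → E) (x₀ : E)
    (h0 : ∀ g, F g x₀ = x₀)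
    (hd : ∀ g, ContDiffAt 𝕜 1 (F g) x₀)
    (h1 : ∀ᶠ x in 𝓝 x₀, F 1 x = x)
    (hm : ∀ g h, ∀ᶠ x in 𝓝 x₀, F (g * h) x = F g (F h x)) :
    ∀ g, ∀ᶠ x in 𝓝 x₀, F g x = x := by
  have hs : ∀ g, HasStrictFDerivAt (F g) (fderiv 𝕜 (F g) x₀) x₀ := fun g =>
    (hd g).hasStrictFDerivAt (by norm_num)
  let ρ : Λ →* Module.End 𝕜 E :=
    { toFun := fun g => (fderiv 𝕜 (F g) x₀ : E →ₗ[𝕜] E)
      map_one' := by
        have h2 : F 1 =ᶠ[𝓝 x₀] id := h1
        rw [h2.fderiv_eq, fderiv_id]
        rfl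
      map_mul' := by
        intro g h
        have h2 : F (g * h) =ᶠ[𝓝 x₀] F g ∘ F h := hm g h
        have h3 : HasFDerivAt (F g) (fderiv 𝕜 (F g) x₀) (F h x₀) := by
          rw [h0]; exact (hs g).hasFDerivAt
        rw [h2.fderiv_eq, (h3.comp x₀ (hs h).hasFDerivAt).fderiv]
        rfl }
  have hρ := linear hn hΛ hfg hdim (Module.finBasis 𝕜 E) (Module.finBasis 𝕜 E).span_eq ρ
  let _ : NormedSpace ℝ E := NormedSpace.restrictScalars ℝ 𝕜 E
  have : IsScalarTower ℝ 𝕜 E := RestrictScalars.isScalarTower _ _ _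
  have : FiniteDimensional ℝ E := Module.Finite.trans 𝕜 E
  refine thurston hfg (fun f => perfect hn hΛ hfg f) F x₀ h0 (fun g => ?_) h1 hm
  have h4 : fderiv 𝕜 (F g) x₀ = ContinuousLinearMap.id 𝕜 E := by
    ext v
    exact LinearMap.congr_fun (DFunLike.congr_fun hρ g) v
  have h5 := hs g
  rw [h4] at h5
  exact h5.restrictScalars ℝ

theorem manifold (hn : 3 ≤ n) (hΛ : FQ n Λ) (hfg : Group.FG Λ) {𝕜 : Type*} [RCLike 𝕜]
    {E : Type*} [NormedAddCommGroup E] [NormedSpace 𝕜 E] [FiniteDimensional 𝕜 E]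
    (hdim : finrank 𝕜 E < n) {M : Type*} [TopologicalSpace M] [ChartedSpace E M] [T2Space M]
    [ConnectedSpace M] (φ : Λ →* Equiv.Perm M) (hφ : ∀ g, ContMDiff 𝓘(𝕜, E) 𝓘(𝕜, E) 1 (φ g))
    (p : M) (hp : ∀ g, φ g p = p) : φ = 1 := by
  classical
  have hloc : ∀ p : M, (∀ g, φ g p = p) → ∀ g, ∀ᶠ z in 𝓝 p, φ g z = z := by
    intro p hp g
    set c := extChartAt 𝓘(𝕜, E) p with hc
    let F : Λ → E → E := fun g => c ∘ φ g ∘ c.symm
    have hps : p ∈ c.source := mem_extChartAt_source p
    have hcp : c.symm (c p) = p := c.left_inv hps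
    have hsrc : c.source ∈ 𝓝 p := extChartAt_source_mem_nhds p
    have htgt : c.target ∈ 𝓝 (c p) := extChartAt_target_mem_nhds p
    have hcs : ContinuousAt c.symm (c p) := continuousAt_extChartAt_symm p
    have hev : ∀ g, ∀ᶠ y in 𝓝 (c p), φ g (c.symm y) ∈ c.source := by
      intro g
      have h1 : ContinuousAt (fun y => φ g (c.symm y)) (c p) := by
        apply ContinuousAt.comp (g := φ g) _ hcs
        exact (hφ g).continuous.continuousAt
      apply h1
      show c.source ∈ 𝓝 (φ g (c.symm (c p)))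
      rw [hcp, hp]
      exact hsrc
    have hg := germ hn hΛ hfg hdim F (c p)
      (by
        intro g
        show c (φ g (c.symm (c p))) = c p
        rw [hcp, hp])
      (by
        intro g
        have h2 := (contMDiffAt_iff.1 ((hφ g).contMDiffAt (x := p))).2
        rw [hp, ModelWithCorners.range_eq_univ, contDiffWithinAt_univ] at h2
        exact h2)
      (by
        filter_upwards [htgt] with y hy
        show c (φ 1 (c.symm y)) = y
        rw [map_one, Equiv.Perm.one_apply, c.right_inv hy])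
      (by
        intro g h
        filter_upwards [hev h] with y hy
        show c (φ (g * h) (c.symm y)) = c (φ g (c.symm (c (φ h (c.symm y)))))
        rw [c.left_inv hy, map_mul, Equiv.Perm.mul_apply])
      g
    have hcc : ContinuousAt c p := continuousAt_extChartAt p
    have hφs : ∀ᶠ z in 𝓝 p, φ g z ∈ c.source := by
      apply (hφ g).continuous.continuousAt
      show c.source ∈ 𝓝 (φ g p)
      rw [hp]
      exact hsrc
    filter_upwards [hcc.eventually hg, hsrc, hφs] with z hz hz2 hz3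
    have hz4 : c (φ g (c.symm (c z))) = c z := hz
    rw [c.left_inv hz2] at hz4
    exact c.injOn hz3 hz2 hz4
  obtain ⟨S, hS, hSf⟩ := Monoid.fg_iff.1 (Group.fg_iff_monoid_fg.1 hfg)
  let A : Set M := {q | ∀ᶠ z in 𝓝 q, ∀ s ∈ S, φ s z = z}
  have hall : ∀ q : M, (∀ s ∈ S, φ s q = q) → ∀ g, φ g q = q := by
    intro q hq g
    have hg : g ∈ Submonoid.closure S := by rw [hS]; trivial
    induction hg using Submonoid.closure_induction with
    | mem s hs => exact hq s hs
    | one => rw [map_one, Equiv.Perm.one_apply]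
    | mul g h _ _ hg hh => rw [map_mul, Equiv.Perm.mul_apply, hh, hg]
  have hmemA : ∀ q : M, (∀ s ∈ S, φ s q = q) → q ∈ A := by
    intro q hq
    have h1 := hloc q (hall q hq)
    exact (eventually_all_finite hSf).2 fun s _ => h1 s
  have hopen : IsOpen A := isOpen_setOfPred_eventually_nhds
  have hclosed : IsClosed A := by
    have hA : A = ⋂ s ∈ S, {z | φ s z = z} := by
      ext q
      simp only [Set.mem_iInter]
      exact ⟨fun h => h.self_of_nhds, fun h => hmemA q h⟩
    rw [hA]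
    exact isClosed_biInter fun s _ => isClosed_eq (hφ s).continuous continuous_id
  have huniv : A = Set.univ := IsClopen.eq_univ ⟨hclosed, hopen⟩ ⟨p, hmemA p fun s _ => hp s⟩
  ext g q
  have hq : q ∈ A := by rw [huniv]; trivial
  rw [hall q hq.self_of_nhds g]
  rfl

end Pool.Agent.N829.PR
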