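import Pool.Agent.N829.PR.Gen

/-!
# Actions on residually nilpotent groups with few generators
-/

set_option autoImplicit false

namespace Pool.Agent.N829.PR

open Subgroup

universe u

variable {Λ : Type*} [Group Λ] {n : ℕ}

/-- the action on the abelianization is trivial -/
theorem act_ab (hn : 3 ≤ n) (hΛ : FQ n Λ) (hfg : Group.FG Λ) {m : ℕ} (hm : m < n)
    {G : Type*} [Group G] (s : Fin m → G) (hs : closure (Set.range s) = ⊤)
    (φ : Λ → G →* G) (h1 : ∀ x, φ 1 x = x) (h2 : ∀ g h x, φ (g * h) x = φ g (φ h x))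
    (g : Λ) (x : G) : x⁻¹ * φ g x ∈ commutator G := by
  let ρ : Λ →* Module.End ℤ (Additive (Abelianization G)) :=
    { toFun := fun g => (MonoidHom.toAdditive (Abelianization.map (φ g))).toIntLinearMap
      map_one' := by
        apply LinearMap.ext
        intro w
        obtain ⟨y, hy⟩ := QuotientGroup.mk_surjective (s := commutator G) w.toMul
        obtain rfl : w = Additive.ofMul (Abelianization.of y) := by
          rw [← ofMul_toMul w, ← hy]; rfl
        show Additive.ofMul (Abelianization.of (φ 1 y)) = _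
        rw [h1]
        rfl
      map_mul' := by
        intro g h
        apply LinearMap.ext
        intro w
        obtain ⟨y, hy⟩ := QuotientGroup.mk_surjective (s := commutator G) w.toMul
        obtain rfl : w = Additive.ofMul (Abelianization.of y) := by
          rw [← ofMul_toMul w, ← hy]; rfl
        show Additive.ofMul (Abelianization.of (φ (g * h) y)) = _
        rw [h2]
        rfl }
  have h7 : ∀ y ∈ closure (Set.range s), Additive.ofMul (Abelianization.of y) ∈
      Submodule.span ℤ (Set.range fun i => Additive.ofMul (Abelianization.of (s i))) := by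
    intro y hy
    induction hy using closure_induction with
    | mem y hy =>
      obtain ⟨j, hj⟩ := hy
      exact Submodule.subset_span ⟨j, by rw [← hj]⟩
    | one =>
      rw [map_one, ofMul_one]
      exact Submodule.zero_mem _
    | mul a b _ _ ha hb =>
      rw [map_mul, ofMul_mul]
      exact Submodule.add_mem _ ha hb
    | inv a _ ha =>
      rw [map_inv, ofMul_inv]
      exact Submodule.neg_mem _ ha
  have h4 := linear hn hΛ hfg hm (fun i => Additive.ofMul (Abelianization.of (s i))) (by
    rw [eq_top_iff]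
    intro w _
    obtain ⟨y, hy⟩ := QuotientGroup.mk_surjective (s := commutator G) w.toMul
    obtain rfl : w = Additive.ofMul (Abelianization.of y) := by
      rw [← ofMul_toMul w, ← hy]; rfl
    exact h7 y (by rw [hs]; trivial)) ρ
  have h5 := LinearMap.congr_fun (DFunLike.congr_fun h4 g) (Additive.ofMul (Abelianization.of x))
  have h6 : Abelianization.of (φ g x) = Abelianization.of x := h5
  rw [← Abelianization.ker_of, MonoidHom.mem_ker, map_mul, map_inv, h6, inv_mul_cancel]

theorem nilp (hn : 3 ≤ n) (hΛ : FQ n Λ) (hfg : Group.FG Λ) {m : ℕ} (hm : m < n)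
    (N : Type u) [Group N] [Group.IsNilpotent N] : ∀ (s : Fin m → N)
    (_ : closure (Set.range s) = ⊤) (φ : Λ → N →* N) (_ : ∀ x, φ 1 x = x)
    (_ : ∀ g h x, φ (g * h) x = φ g (φ h x)) (g : Λ) (x : N), φ g x = x := by
  refine Group.nilpotent_center_quotient_ind
    (P := fun N [Group N] [Group.IsNilpotent N] => ∀ (s : Fin m → N)
      (_ : closure (Set.range s) = ⊤) (φ : Λ → N →* N) (_ : ∀ x, φ 1 x = x)
      (_ : ∀ g h x, φ (g * h) x = φ g (φ h x)) (g : Λ) (x : N), φ g x = x) N
    (fun N _ _ s _ φ _ _ g x => Subsingleton.elim _ _) ?_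
  intro N _ _ ih s hs φ p1 p2
  let cg : CommGroup (center N) :=
    { (inferInstance : Group (center N)) with
      mul_comm := fun a b => Subtype.ext (mem_center_iff.1 b.2 a) }
  have hinv : ∀ g x, φ g (φ g⁻¹ x) = x := by
    intro g x
    rw [← p2, mul_inv_cancel, p1]
  have hc : ∀ g, center N ≤ (center N).comap (φ g) := by
    intro g z hz
    rw [mem_comap, mem_center_iff]
    intro h
    rw [← hinv g h, ← map_mul, ← map_mul, mem_center_iff.1 hz]
  have h1 := ih (fun i => (s i : N ⧸ center N)) (by
    have h2 := congrArg (Subgroup.map (QuotientGroup.mk' (center N))) hs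
    rw [MonoidHom.map_closure, ← Set.range_comp, Subgroup.map_top_of_surjective _
      (QuotientGroup.mk'_surjective _)] at h2
    exact h2) (fun g => QuotientGroup.map _ _ (φ g) (hc g))
    (by
      intro w
      obtain ⟨y, rfl⟩ := QuotientGroup.mk_surjective w
      rw [QuotientGroup.map_mk, p1])
    (by
      intro g h w
      obtain ⟨y, rfl⟩ := QuotientGroup.mk_surjective w
      rw [QuotientGroup.map_mk, QuotientGroup.map_mk, QuotientGroup.map_mk, p2])
  have hz : ∀ g x, x⁻¹ * φ g x ∈ center N := by
    intro g x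
    have h2 := h1 g (x : N ⧸ center N)
    have h3 : ((φ g x : N) : N ⧸ center N) = x := h2
    exact QuotientGroup.eq.1 h3.symm
  have hφ : ∀ g x, φ g x = x * (x⁻¹ * φ g x) := fun g x => by group
  -- the map `x ↦ x⁻¹ φ(x)` is a homomorphism to the centre
  let zf : Λ → N →* center N := fun g =>
    { toFun := fun x => ⟨x⁻¹ * φ g x, hz g x⟩
      map_one' := by
        apply Subtype.ext
        simp
      map_mul' := by
        intro x y
        apply Subtype.ext
        show (x * y)⁻¹ * φ g (x * y) = (x⁻¹ * φ g x) * (y⁻¹ * φ g y)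
        rw [map_mul, mul_inv_rev]
        have h4 := mem_center_iff.1 (hz g x) y⁻¹
        calc y⁻¹ * x⁻¹ * (φ g x * φ g y) = y⁻¹ * (x⁻¹ * φ g x) * φ g y := by group
          _ = (x⁻¹ * φ g x) * y⁻¹ * φ g y := by rw [h4]
          _ = _ := by group }
  have hcomm : ∀ g, ∀ x ∈ commutator N, φ g x = x := by
    intro g x hx
    have h5 := Abelianization.commutator_subset_ker (A := center N) (zf g) hx
    rw [MonoidHom.mem_ker] at h5
    have h6 : x⁻¹ * φ g x = 1 := congrArg Subtype.val h5
    rw [hφ, h6, mul_one]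
  intro g x
  let f : Λ →* center N :=
    { toFun := fun g => zf g x
      map_one' := by
        apply Subtype.ext
        show x⁻¹ * φ 1 x = 1
        rw [p1]
        exact inv_mul_cancel x
      map_mul' := by
        intro g h
        apply Subtype.ext
        show x⁻¹ * φ (g * h) x = (x⁻¹ * φ g x) * (x⁻¹ * φ h x)
        have h7 : φ g (φ h x) = φ g x * (x⁻¹ * φ h x) := by
          conv_lhs => rw [hφ h x]
          rw [map_mul, hcomm g _ (act_ab hn hΛ hfg hm s hs φ p1 p2 h x)]
        rw [p2, h7]
        group }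
  have h8 := DFunLike.congr_fun (perfect (A := center N) hn hΛ hfg f) g
  have h9 : x⁻¹ * φ g x = 1 := congrArg Subtype.val h8
  rw [hφ, h9, mul_one]

theorem resnilp (hn : 3 ≤ n) (hΛ : FQ n Λ) (hfg : Group.FG Λ) {m : ℕ} (hm : m < n)
    {G : Type*} [Group G] (s : Fin m → G) (hs : closure (Set.range s) = ⊤)
    (hres : ∀ x : G, x ≠ 1 → ∃ k, x ∉ (⊤ : Subgroup G).lowerCentralSeries k)
    (φ : Λ → G →* G) (p1 : ∀ x, φ 1 x = x) (p2 : ∀ g h x, φ (g * h) x = φ g (φ h x))
    (g : Λ) (x : G) : φ g x = x := by
  by_contra hne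
  have hne' : x⁻¹ * φ g x ≠ 1 := by
    intro h
    exact hne (inv_mul_eq_one.1 h).symm
  obtain ⟨k, hk⟩ := hres _ hne'
  have hc : ∀ g, (⊤ : Subgroup G).lowerCentralSeries k ≤
      ((⊤ : Subgroup G).lowerCentralSeries k).comap (φ g) := by
    intro g
    rw [← Subgroup.map_le_iff_le_comap, map_lowerCentralSeries]
    exact lowerCentralSeries_mono k le_top
  have hnil : Group.IsNilpotent (G ⧸ (⊤ : Subgroup G).lowerCentralSeries k) := by
    rw [Subgroup.nilpotent_iff_lowerCentralSeries]
    refine ⟨k, ?_⟩
    rw [← Subgroup.map_top_of_surjective _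
      (QuotientGroup.mk'_surjective ((⊤ : Subgroup G).lowerCentralSeries k)),
      ← map_lowerCentralSeries, QuotientGroup.map_mk'_self]
  have h1 := nilp hn hΛ hfg hm (G ⧸ (⊤ : Subgroup G).lowerCentralSeries k)
    (fun i => (s i : G ⧸ (⊤ : Subgroup G).lowerCentralSeries k)) (by
    have h2 := congrArg (Subgroup.map
      (QuotientGroup.mk' ((⊤ : Subgroup G).lowerCentralSeries k))) hs
    rw [MonoidHom.map_closure, ← Set.range_comp, Subgroup.map_top_of_surjective _
      (QuotientGroup.mk'_surjective _)] at h2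
    exact h2) (fun g => QuotientGroup.map _ _ (φ g) (hc g))
    (by
      intro w
      obtain ⟨y, rfl⟩ := QuotientGroup.mk_surjective w
      rw [QuotientGroup.map_mk, p1])
    (by
      intro g h w
      obtain ⟨y, rfl⟩ := QuotientGroup.mk_surjective w
      rw [QuotientGroup.map_mk, QuotientGroup.map_mk, QuotientGroup.map_mk, p2]) g x
  have h3 : ((φ g x : G) : G ⧸ (⊤ : Subgroup G).lowerCentralSeries k) = x := h1
  exact hk (QuotientGroup.eq.1 h3.symm)

end Pool.Agent.N829.PR
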