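import Pool.Agent.N829.PR.Gen

/-!
# Thurston's stability argument
-/

set_option autoImplicit false

namespace Pool.Agent.N829.PR

open Filter Topology Asymptotics

variable {Λ : Type*} [Group Λ]

theorem thurston {E : Type*} [NormedAddCommGroup E] [NormedSpace ℝ E] [FiniteDimensional ℝ E]
    (hfg : Group.FG Λ) (hp : ∀ f : Λ →* Multiplicative E, f = 1) (F : Λ → E → E) (x₀ : E)
    (h0 : ∀ g, F g x₀ = x₀)
    (hd : ∀ g, HasStrictFDerivAt (F g) (ContinuousLinearMap.id ℝ E) x₀)
    (h1 : ∀ᶠ x in 𝓝 x₀, F 1 x = x)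
    (hm : ∀ g h, ∀ᶠ x in 𝓝 x₀, F (g * h) x = F g (F h x)) :
    ∀ g, ∀ᶠ x in 𝓝 x₀, F g x = x := by
  classical
  rw [Group.fg_iff_monoid_fg, Monoid.fg_iff] at hfg
  obtain ⟨S, hS, hSf⟩ := hfg
  set T := hSf.toFinset with hT
  by_contra hne
  have hfreq : ∃ᶠ x in 𝓝 x₀, ∃ s ∈ T, F s x ≠ x := by
    intro hev
    apply hne
    have hev' : ∀ᶠ x in 𝓝 x₀, ∀ s ∈ T, F s x = x := by
      filter_upwards [hev] with x hx s hs
      by_contra hc
      exact hx ⟨s, hs, hc⟩
    intro g
    have hg : g ∈ Submonoid.closure S := by rw [hS]; trivial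
    induction hg using Submonoid.closure_induction with
    | mem s hs => exact hev'.mono fun x hx => hx s (hSf.mem_toFinset.2 hs)
    | one => exact h1
    | mul g h _ _ hg hh =>
      filter_upwards [hm g h, hg, hh] with x e1 e2 e3
      rw [e1, e3, e2]
  have hNB : (𝓝 x₀ ⊓ 𝓟 {x | ∃ s ∈ T, F s x ≠ x}).NeBot := frequently_iff_neBot.1 hfreq
  set 𝒰 : Ultrafilter E := Ultrafilter.of (𝓝 x₀ ⊓ 𝓟 {x | ∃ s ∈ T, F s x ≠ x}) with hUd
  have hU0 : (𝒰 : Filter E) ≤ 𝓝 x₀ ⊓ 𝓟 {x | ∃ s ∈ T, F s x ≠ x} := Ultrafilter.of_le _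
  have hU : (𝒰 : Filter E) ≤ 𝓝 x₀ := hU0.trans inf_le_left
  let Mx : E → ℝ := fun x => ∑ s ∈ T, ‖F s x - x‖
  have hpos : ∀ᶠ x in (𝒰 : Filter E), 0 < Mx x := by
    have h2 : ∀ᶠ x in (𝒰 : Filter E), ∃ s ∈ T, F s x ≠ x :=
      (hU0.trans inf_le_right) (mem_principal_self _)
    filter_upwards [h2] with x hx
    obtain ⟨s, hs, hne⟩ := hx
    exact Finset.sum_pos' (fun _ _ => norm_nonneg _)
      ⟨s, hs, norm_pos_iff.2 (sub_ne_zero.2 hne)⟩
  have hMle : ∀ s ∈ T, ∀ x, ‖F s x - x‖ ≤ Mx x := by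
    intro s hs x
    exact Finset.single_le_sum (f := fun s => ‖F s x - x‖) (fun _ _ => norm_nonneg _) hs
  have hcont : ∀ g, Tendsto (F g) (𝒰 : Filter E) (𝓝 x₀) := by
    intro g
    have h3 := (hd g).hasFDerivAt.continuousAt
    unfold ContinuousAt at h3
    rw [h0] at h3
    exact h3.mono_left hU
  have key : ∀ g h, (fun x => (F (g * h) x - x) - (F g x - x) - (F h x - x)) =o[(𝒰 : Filter E)]
      (fun x => F h x - x) := by
    intro g h
    have h4 := (hd g).isLittleO
    have h5 : Tendsto (fun x => (F h x, x)) (𝒰 : Filter E) (𝓝 (x₀, x₀)) := by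
      rw [nhds_prod_eq]
      exact (hcont h).prodMk hU
    have h6 := h4.comp_tendsto h5
    refine h6.congr' ?_ (Eventually.of_forall fun x => rfl)
    filter_upwards [hU (hm g h)] with x hx
    simp only [Function.comp, ContinuousLinearMap.id_apply]
    rw [show F (g * h) x = F g (F h x) from hx]
    abel
  have hbig : ∀ g, (fun x => F g x - x) =O[(𝒰 : Filter E)] Mx := by
    intro g
    have hg : g ∈ Submonoid.closure S := by rw [hS]; trivial
    induction hg using Submonoid.closure_induction with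
    | mem s hs =>
      refine IsBigO.of_bound 1 (Eventually.of_forall fun x => ?_)
      rw [one_mul]
      exact (hMle s (hSf.mem_toFinset.2 hs) x).trans (le_abs_self _)
    | one =>
      have : (fun x => F 1 x - x) =ᶠ[(𝒰 : Filter E)] fun _ => (0 : E) := by
        filter_upwards [hU h1] with x hx
        rw [show F 1 x = x from hx, sub_self]
      exact this.trans_isBigO (isBigO_zero _ _)
    | mul g h _ _ hg hh =>
      have h7 := ((key g h).isBigO.trans hh).add (hg.add hh)
      refine h7.congr_left fun x => ?_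
      abel
  have hprop : ProperSpace E := FiniteDimensional.proper ℝ E
  have hlim : ∀ g, ∃ a : E, Tendsto (fun x => (Mx x)⁻¹ • (F g x - x)) (𝒰 : Filter E) (𝓝 a) := by
    intro g
    obtain ⟨C, hC⟩ := (hbig g).bound
    have h8 : ∀ᶠ x in (𝒰 : Filter E), (Mx x)⁻¹ • (F g x - x) ∈ Metric.closedBall (0 : E) C := by
      filter_upwards [hC, hpos] with x hx hx2
      rw [mem_closedBall_zero_iff, norm_smul, norm_inv, Real.norm_of_nonneg hx2.le,
        inv_mul_le_iff₀ hx2]
      rw [Real.norm_of_nonneg hx2.le] at hx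
      linarith
    obtain ⟨a, _, ha⟩ := (isCompact_closedBall (0 : E) C).ultrafilter_le_nhds
      (𝒰.map fun x => (Mx x)⁻¹ • (F g x - x)) (by
        rw [le_principal_iff]
        exact h8)
    exact ⟨a, ha⟩
  choose U hUl using hlim
  have hadd : ∀ g h, U (g * h) = U g + U h := by
    intro g h
    have h9 : Tendsto (fun x => (Mx x)⁻¹ • ((F (g * h) x - x) - (F g x - x) - (F h x - x)))
        (𝒰 : Filter E) (𝓝 0) := ((key g h).trans_isBigO (hbig h)).tendsto_inv_smul_nhds_zero
    have h10 := ((hUl (g * h)).sub (hUl g)).sub (hUl h)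
    have h11 := tendsto_nhds_unique (h10.congr fun x => by
      simp only [smul_sub]) h9
    have h12 : U (g * h) - (U g + U h) = 0 := by
      rw [← h11]; abel
    exact sub_eq_zero.1 h12
  let f : Λ →* Multiplicative E := MonoidHom.mk' (fun g => Multiplicative.ofAdd (U g)) (by
    intro g h
    rw [hadd]
    rfl)
  have hf := hp f
  have hUz : ∀ g, U g = 0 := by
    intro g
    have := DFunLike.congr_fun hf g
    exact this
  have hsum : Tendsto (fun x => ∑ s ∈ T, ‖(Mx x)⁻¹ • (F s x - x)‖) (𝒰 : Filter E) (𝓝 0) := by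
    have h13 := tendsto_finsetSum T fun s (_ : s ∈ T) => (hUl s).norm
    simpa [hUz] using h13
  have hone : Tendsto (fun x => ∑ s ∈ T, ‖(Mx x)⁻¹ • (F s x - x)‖) (𝒰 : Filter E) (𝓝 1) := by
    apply tendsto_const_nhds.congr'
    filter_upwards [hpos] with x hx
    simp only [norm_smul, norm_inv, Real.norm_of_nonneg hx.le]
    rw [← Finset.mul_sum]
    exact (inv_mul_cancel₀ hx.ne').symm
  exact zero_ne_one (tendsto_nhds_unique hsum hone)

end Pool.Agent.N829.PR
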