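import Pool.Agent.N829.PR.Sup
import Pool.Agent.N829.PR.Thur

/-!
# Smooth actions on manifolds of small dimension with a finite orbit
-/

set_option autoImplicit false

namespace Pool.Agent.N829.PR

open Filter Topology Module
open scoped Manifold

section chart

variable {𝕜 : Type} [RCLike 𝕜] {E : Type*} [NormedAddCommGroup E] [NormedSpace 𝕜 E]
  {M : Type*} [TopologicalSpace M] [ChartedSpace E M]

/-- a map in the preferred chart at `p` -/
noncomputable def inChart (𝕜 : Type) [RCLike 𝕜] {E : Type*} [NormedAddCommGroup E]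
    [NormedSpace 𝕜 E] {M : Type*} [TopologicalSpace M] [ChartedSpace E M] (p : M) (f : M → M) :
    E → E :=
  extChartAt 𝓘(𝕜, E) p ∘ f ∘ (extChartAt 𝓘(𝕜, E) p).symm

lemma inChart_fix {p : M} {f : M → M} (hp : f p = p) :
    inChart 𝕜 p f (extChartAt 𝓘(𝕜, E) p p) = extChartAt 𝓘(𝕜, E) p p := by
  show extChartAt 𝓘(𝕜, E) p (f ((extChartAt 𝓘(𝕜, E) p).symm (extChartAt 𝓘(𝕜, E) p p))) = _
  rw [(extChartAt 𝓘(𝕜, E) p).left_inv (mem_extChartAt_source p), hp]

lemma inChart_diff {p : M} {f : M → M} (hp : f p = p) (hf : ContMDiff 𝓘(𝕜, E) 𝓘(𝕜, E) 1 f) :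
    ContDiffAt 𝕜 1 (inChart 𝕜 p f) (extChartAt 𝓘(𝕜, E) p p) := by
  have h2 := (contMDiffAt_iff.1 (hf.contMDiffAt (x := p))).2
  rw [hp, ModelWithCorners.range_eq_univ, contDiffWithinAt_univ] at h2
  exact h2

lemma inChart_comp {p : M} {f g : M → M} (hg : g p = p) (hgc : Continuous g) :
    ∀ᶠ y in 𝓝 (extChartAt 𝓘(𝕜, E) p p),
      inChart 𝕜 p (f ∘ g) y = inChart 𝕜 p f (inChart 𝕜 p g y) := by
  have hcs : ContinuousAt (extChartAt 𝓘(𝕜, E) p).symm (extChartAt 𝓘(𝕜, E) p p) :=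
    continuousAt_extChartAt_symm p
  have hcp : (extChartAt 𝓘(𝕜, E) p).symm (extChartAt 𝓘(𝕜, E) p p) = p :=
    (extChartAt 𝓘(𝕜, E) p).left_inv (mem_extChartAt_source p)
  have h1 : ContinuousAt (fun y => g ((extChartAt 𝓘(𝕜, E) p).symm y))
      (extChartAt 𝓘(𝕜, E) p p) :=
    ContinuousAt.comp (g := g) hgc.continuousAt hcs
  have h2 : ∀ᶠ y in 𝓝 (extChartAt 𝓘(𝕜, E) p p),
      g ((extChartAt 𝓘(𝕜, E) p).symm y) ∈ (extChartAt 𝓘(𝕜, E) p).source := by
    apply h1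
    show (extChartAt 𝓘(𝕜, E) p).source ∈ 𝓝 (g ((extChartAt 𝓘(𝕜, E) p).symm
      (extChartAt 𝓘(𝕜, E) p p)))
    rw [hcp, hg]
    exact extChartAt_source_mem_nhds p
  filter_upwards [h2] with y hy
  show extChartAt 𝓘(𝕜, E) p (f (g ((extChartAt 𝓘(𝕜, E) p).symm y))) =
    extChartAt 𝓘(𝕜, E) p (f ((extChartAt 𝓘(𝕜, E) p).symm
      (extChartAt 𝓘(𝕜, E) p (g ((extChartAt 𝓘(𝕜, E) p).symm y)))))
  rw [(extChartAt 𝓘(𝕜, E) p).left_inv hy]

/-- a map which is the identity near a point of the chart is so in the chart -/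
lemma inChart_id {p z : M} (hz : z ∈ (extChartAt 𝓘(𝕜, E) p).source) {f : M → M}
    (hf : ∀ᶠ x in 𝓝 z, f x = x) :
    ∀ᶠ y in 𝓝 (extChartAt 𝓘(𝕜, E) p z), inChart 𝕜 p f y = y := by
  have hcz : (extChartAt 𝓘(𝕜, E) p).symm (extChartAt 𝓘(𝕜, E) p z) = z :=
    (extChartAt 𝓘(𝕜, E) p).left_inv hz
  have hcs : ContinuousAt (extChartAt 𝓘(𝕜, E) p).symm (extChartAt 𝓘(𝕜, E) p z) :=
    continuousAt_extChartAt_symm' hz
  have htgt : (extChartAt 𝓘(𝕜, E) p).target ∈ 𝓝 (extChartAt 𝓘(𝕜, E) p z) :=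
    extChartAt_target_mem_nhds' ((extChartAt 𝓘(𝕜, E) p).map_source hz)
  have h1 : ∀ᶠ y in 𝓝 (extChartAt 𝓘(𝕜, E) p z),
      (fun x => f x = x) ((extChartAt 𝓘(𝕜, E) p).symm y) :=
    hcs.eventually (by rw [hcz]; exact hf)
  filter_upwards [h1, htgt] with y hy hy2
  show extChartAt 𝓘(𝕜, E) p (f ((extChartAt 𝓘(𝕜, E) p).symm y)) = y
  have hy3 : f ((extChartAt 𝓘(𝕜, E) p).symm y) = (extChartAt 𝓘(𝕜, E) p).symm y := hy
  rw [hy3, (extChartAt 𝓘(𝕜, E) p).right_inv hy2]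

/-- and conversely at the centre of the chart -/
lemma id_of_inChart {p : M} {f : M → M} (hp : f p = p) (hf : Continuous f)
    (h : ∀ᶠ y in 𝓝 (extChartAt 𝓘(𝕜, E) p p), inChart 𝕜 p f y = y) : ∀ᶠ z in 𝓝 p, f z = z := by
  have hcc : ContinuousAt (extChartAt 𝓘(𝕜, E) p) p := continuousAt_extChartAt p
  have hφs : ∀ᶠ z in 𝓝 p, f z ∈ (extChartAt 𝓘(𝕜, E) p).source := by
    apply hf.continuousAt
    show (extChartAt 𝓘(𝕜, E) p).source ∈ 𝓝 (f p)
    rw [hp]
    exact extChartAt_source_mem_nhds p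
  filter_upwards [hcc.eventually h, extChartAt_source_mem_nhds (I := 𝓘(𝕜, E)) p, hφs]
    with z hz hz2 hz3
  have hz4 : extChartAt 𝓘(𝕜, E) p (f ((extChartAt 𝓘(𝕜, E) p).symm
    (extChartAt 𝓘(𝕜, E) p z))) = extChartAt 𝓘(𝕜, E) p z := hz
  rw [(extChartAt 𝓘(𝕜, E) p).left_inv hz2] at hz4
  exact (extChartAt 𝓘(𝕜, E) p).injOn hz3 hz2 hz4

/-- Thurston's stability theorem in a manifold, at a fixed point with trivial derivatives -/
theorem thurston_man [FiniteDimensional 𝕜 E] {Γ : Type*} [Group Γ] (hfg : Group.FG Γ)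
    (hp : ∀ f : Γ →* Multiplicative E, f = 1) (φ : Γ →* Equiv.Perm M)
    (hφ : ∀ g, ContMDiff 𝓘(𝕜, E) 𝓘(𝕜, E) 1 (φ g)) (p : M) (hfix : ∀ g, φ g p = p)
    (hder : ∀ g, fderiv 𝕜 (inChart 𝕜 p (φ g)) (extChartAt 𝓘(𝕜, E) p p) =
      ContinuousLinearMap.id 𝕜 E) (g : Γ) : ∀ᶠ z in 𝓝 p, φ g z = z := by
  let _ : NormedSpace ℝ E := NormedSpace.restrictScalars ℝ 𝕜 E
  have : IsScalarTower ℝ 𝕜 E := RestrictScalars.isScalarTower _ _ _
  have : FiniteDimensional ℝ E := Module.Finite.trans 𝕜 E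
  refine id_of_inChart (𝕜 := 𝕜) (E := E) (hfix g) (hφ g).continuous ?_
  refine thurston hfg hp (fun g => inChart 𝕜 p (φ g)) (extChartAt 𝓘(𝕜, E) p p)
    (fun g => inChart_fix (hfix g)) (fun g => ?_) ?_ (fun g h => ?_) g
  · have h5 := (inChart_diff (𝕜 := 𝕜) (hfix g) (hφ g)).hasStrictFDerivAt (by norm_num)
    rw [hder g] at h5
    exact h5.restrictScalars ℝ
  · have h6 := inChart_id (𝕜 := 𝕜) (E := E) (mem_extChartAt_source (I := 𝓘(𝕜, E)) p)
      (f := φ 1) (Eventually.of_forall fun x => by rw [map_one, Equiv.Perm.one_apply])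
    exact h6
  · have h7 := inChart_comp (𝕜 := 𝕜) (E := E) (f := φ g) (hfix h) (hφ h).continuous
    have h8 : (φ g : M → M) ∘ (φ h : M → M) = φ (g * h) := by
      rw [map_mul]; rfl
    rw [h8] at h7
    exact h7

end chart

variable {Λ : Type} [Group Λ] {n : ℕ}

theorem manifold_virt (hn : 3 ≤ n) (hV : VP n Λ) {𝕜 : Type} [RCLike 𝕜]
    {E : Type*} [NormedAddCommGroup E] [NormedSpace 𝕜 E] [FiniteDimensional 𝕜 E]
    (hdim : finrank 𝕜 E < n) {M : Type*} [TopologicalSpace M] [ChartedSpace E M] [T2Space M]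
    [ConnectedSpace M] (φ : Λ →* Equiv.Perm M) (hφ : ∀ g, ContMDiff 𝓘(𝕜, E) 𝓘(𝕜, E) 1 (φ g))
    (p : M) (hp : (Set.range fun g => φ g p).Finite) : Finite φ.range := by
  classical
  have hfg : Group.FG Λ := hV.1
  let _ : NormedSpace ℝ E := NormedSpace.restrictScalars ℝ 𝕜 E
  -- the stabilizer
  let H : Subgroup Λ := (MulAction.stabilizer (Equiv.Perm M) p).comap φ
  have hHm : ∀ g, g ∈ H ↔ φ g p = p := fun g => Iff.rfl
  have hfr : Finite (Set.range fun g => φ g p) := hp.to_subtype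
  have hfq : Finite (Λ ⧸ H) := by
    refine Finite.of_injective
      (fun q : Λ ⧸ H => (⟨φ q.out p, ⟨q.out, rfl⟩⟩ : Set.range fun g => φ g p)) ?_
    intro q q' hqq
    have h1 : φ q.out p = φ q'.out p := congrArg Subtype.val hqq
    rw [← q.out_eq', ← q'.out_eq', QuotientGroup.eq, hHm, map_mul, Equiv.Perm.mul_apply, ← h1,
      map_inv]
    exact (φ q.out).symm_apply_apply p
  have hHfi : H.FiniteIndex := Subgroup.finiteIndex_of_finite_quotient
  -- the derivative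
  let b := Module.finBasis 𝕜 E
  let D : H →* Module.End 𝕜 E :=
    { toFun := fun g => (fderiv 𝕜 (inChart 𝕜 p (φ g)) (extChartAt 𝓘(𝕜, E) p p) : E →ₗ[𝕜] E)
      map_one' := by
        have h6 : inChart 𝕜 p (φ (1 : H)) =ᶠ[𝓝 (extChartAt 𝓘(𝕜, E) p p)] id :=
          inChart_id (𝕜 := 𝕜) (E := E) (mem_extChartAt_source (I := 𝓘(𝕜, E)) p)
            (f := φ (1 : H)) (Eventually.of_forall fun x => by
              rw [Subgroup.coe_one, map_one, Equiv.Perm.one_apply])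
        rw [h6.fderiv_eq, fderiv_id]
        rfl
      map_mul' := by
        intro g h
        have h7 := inChart_comp (𝕜 := 𝕜) (E := E) (f := φ g) ((hHm h).1 h.2) (hφ h).continuous
        have h8 : (φ g : M → M) ∘ (φ h : M → M) = φ (g * h : H) := by
          rw [Subgroup.coe_mul, map_mul]; rfl
        rw [h8] at h7
        have h9 : inChart 𝕜 p (φ (g * h : H)) =ᶠ[𝓝 (extChartAt 𝓘(𝕜, E) p p)]
            inChart 𝕜 p (φ g) ∘ inChart 𝕜 p (φ h) := h7
        have h10 : HasFDerivAt (inChart 𝕜 p (φ g))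
            (fderiv 𝕜 (inChart 𝕜 p (φ g)) (extChartAt 𝓘(𝕜, E) p p))
            (inChart 𝕜 p (φ h) (extChartAt 𝓘(𝕜, E) p p)) := by
          rw [inChart_fix ((hHm h).1 h.2)]
          exact ((inChart_diff (𝕜 := 𝕜) ((hHm g).1 g.2) (hφ g)).differentiableAt
            (by norm_num)).hasFDerivAt
        have h11 := ((inChart_diff (𝕜 := 𝕜) ((hHm h).1 h.2) (hφ h)).differentiableAt
            (by norm_num)).hasFDerivAt
        rw [h9.fderiv_eq, (h10.comp _ h11).fderiv]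
        rfl }
  let ρ : H →* Matrix (Fin (finrank 𝕜 E)) (Fin (finrank 𝕜 E)) 𝕜 :=
    ((LinearMap.toMatrixAlgEquiv b : Module.End 𝕜 E →*
      Matrix (Fin (finrank 𝕜 E)) (Fin (finrank 𝕜 E)) 𝕜)).comp D
  have hρ := hV.2 H _ hdim 𝕜 ρ
  have hρinj : ∀ g : H, ρ g = 1 → D g = 1 := by
    intro g hg
    apply (LinearMap.toMatrixAlgEquiv b).injective
    rw [map_one]
    exact hg
  have hρr : Finite ρ.toHomUnits.range := by
    have h12 : Finite (Set.range ρ) := hρ.to_subtype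
    refine Finite.of_injective (fun u : ρ.toHomUnits.range => (⟨(u : (Matrix _ _ 𝕜)ˣ).val, by
      obtain ⟨g, hg⟩ := u.2
      exact ⟨g, by rw [← hg]; rfl⟩⟩ : Set.range ρ)) ?_
    intro u v huv
    exact Subtype.ext (Units.ext (congrArg Subtype.val huv))
  have hker : ρ.toHomUnits.ker.FiniteIndex := Subgroup.finiteIndex_ker _
  let H₁ : Subgroup Λ := (ρ.toHomUnits.ker).map H.subtype
  have hH₁ : H₁.FiniteIndex := ⟨by
    rw [Subgroup.index_map_subtype]
    exact mul_ne_zero hker.index_ne_zero hHfi.index_ne_zero⟩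
  have hH₁fg : Group.FG H₁ := inferInstance
  have hab : ∀ f : H₁ →* Multiplicative E, f = 1 := fun f => virt_ab hn hV H₁ f
  have hfix₁ : ∀ g : H₁, φ g p = p := by
    rintro ⟨g, h, _, rfl⟩
    exact (hHm _).1 h.2
  have hder₁ : ∀ g : H₁, fderiv 𝕜 (inChart 𝕜 p (φ g)) (extChartAt 𝓘(𝕜, E) p p) =
      ContinuousLinearMap.id 𝕜 E := by
    rintro ⟨g, h, hh, rfl⟩
    have h13 : ρ h = 1 := by
      have h14 : ρ.toHomUnits h = 1 := hh
      exact congrArg Units.val h14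
    have h15 := hρinj h h13
    ext v
    exact LinearMap.congr_fun h15 v
  -- the open and closed set
  obtain ⟨S, hS, hSf⟩ := Monoid.fg_iff.1 (Group.fg_iff_monoid_fg.1 hH₁fg)
  let A : Set M := {q | ∀ᶠ z in 𝓝 q, ∀ s ∈ S, φ s z = z}
  have hall : ∀ q : M, (∀ s ∈ S, φ s q = q) → ∀ g : H₁, φ g q = q := by
    intro q hq g
    have hg : g ∈ Submonoid.closure S := by rw [hS]; trivial
    induction hg using Submonoid.closure_induction with
    | mem s hs => exact hq s hs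
    | one => rw [Subgroup.coe_one, map_one, Equiv.Perm.one_apply]
    | mul g h _ _ hg hh => rw [Subgroup.coe_mul, map_mul, Equiv.Perm.mul_apply, hh, hg]
  have hloc : ∀ q : M, (∀ g : H₁, φ g q = q) →
      (∀ g : H₁, fderiv 𝕜 (inChart 𝕜 q (φ g)) (extChartAt 𝓘(𝕜, E) q q) =
        ContinuousLinearMap.id 𝕜 E) → q ∈ A := by
    intro q hq hq2
    refine (eventually_all_finite hSf).2 fun s _ => ?_
    exact thurston_man hH₁fg hab (φ.comp H₁.subtype) (fun g => hφ g) q hq hq2 s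
  have hopen : IsOpen A := isOpen_setOfPred_eventually_nhds
  have hclosed : IsClosed A := by
    rw [isClosed_iff_frequently]
    intro q hq
    have hqf : ∀ g : H₁, φ g q = q := by
      refine hall q fun s hs => ?_
      exact (isClosed_iff_frequently.1 (isClosed_eq (hφ s).continuous continuous_id)) q
        (hq.mono fun z hz => hz.self_of_nhds s hs)
    refine hloc q hqf fun g => ?_
    by_contra hne
    have hcont : ContinuousAt (fderiv 𝕜 (inChart 𝕜 q (φ g))) (extChartAt 𝓘(𝕜, E) q q) :=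
      ((inChart_diff (𝕜 := 𝕜) (hqf g) (hφ g)).fderiv_right (m := 0) (by norm_num)).continuousAt
    have hev := hcont.eventually_ne hne
    have hcc : ContinuousAt (extChartAt 𝓘(𝕜, E) q) q := continuousAt_extChartAt q
    have hev2 := hcc.eventually hev
    obtain ⟨z, hzA, hz1, hz2⟩ := (hq.and_eventually
      (hev2.and (extChartAt_source_mem_nhds (I := 𝓘(𝕜, E)) q))).exists
    have hz3 : ∀ᶠ x in 𝓝 z, φ g x = x := hzA.mono fun x hx => hall x hx g
    have hz4 : inChart 𝕜 q (φ g) =ᶠ[𝓝 (extChartAt 𝓘(𝕜, E) q z)] id := inChart_id hz2 hz3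
    apply hz1
    rw [hz4.fderiv_eq, fderiv_id]
  have huniv : A = Set.univ := IsClopen.eq_univ ⟨hclosed, hopen⟩ ⟨p, hloc p hfix₁ hder₁⟩
  have hle : H₁ ≤ φ.ker := by
    intro g hg
    rw [MonoidHom.mem_ker]
    ext q
    have hq : q ∈ A := by rw [huniv]; trivial
    exact hall q hq.self_of_nhds ⟨g, hg⟩
  have hkf : φ.ker.FiniteIndex := Subgroup.finiteIndex_of_le hle
  exact Finite.of_equiv _ (QuotientGroup.quotientKerEquivRange φ).toEquiv

end Pool.Agent.N829.PR
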