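import Pool.Agent.N829.PR.Gen

/-!
# Reducible representations and actions on small sets
-/

set_option autoImplicit false

namespace Pool.Agent.N829.PR

open Module

variable {Λ : Type*} [Group Λ] {n : ℕ}

theorem reducible (hn : 3 ≤ n) (hΛ : FQ n Λ) (hfg : Group.FG Λ)
    {F : Type*} [Field F] {V : Type*} [AddCommGroup V] [Module F V] [FiniteDimensional F V]
    (hd : finrank F V ≤ n) (ρ : Λ →* Module.End F V) (W : Submodule F V) (h0 : W ≠ ⊥)
    (h1 : W ≠ ⊤) (hW : ∀ g, ∀ w ∈ W, ρ g w ∈ W) : ρ = 1 := by
  have hlt : finrank F W < n := lt_of_lt_of_le (Submodule.finrank_lt h1) hd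
  have hpos : 0 < finrank F W := by
    rw [Module.finrank_pos_iff]
    exact Submodule.nontrivial_iff_ne_bot.2 h0
  have hlt2 : finrank F (V ⧸ W) < n := by
    have := Submodule.finrank_quotient_add_finrank W
    omega
  let ρW : Λ →* Module.End F W :=
    { toFun := fun g => (ρ g).restrict (hW g)
      map_one' := by
        apply LinearMap.ext
        intro w
        apply Subtype.ext
        show ρ 1 (w : V) = w
        rw [map_one, Module.End.one_apply]
      map_mul' := by
        intro g h
        apply LinearMap.ext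
        intro w
        apply Subtype.ext
        show ρ (g * h) (w : V) = ρ g (ρ h w)
        rw [map_mul, Module.End.mul_apply] }
  let ρQ : Λ →* Module.End F (V ⧸ W) :=
    { toFun := fun g => W.mapQ W (ρ g) (hW g)
      map_one' := by
        apply LinearMap.ext
        intro w
        obtain ⟨w, rfl⟩ := Submodule.Quotient.mk_surjective _ w
        show Submodule.Quotient.mk (ρ 1 w) = _
        rw [map_one, Module.End.one_apply]
        rfl
      map_mul' := by
        intro g h
        apply LinearMap.ext
        intro w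
        obtain ⟨w, rfl⟩ := Submodule.Quotient.mk_surjective _ w
        show Submodule.Quotient.mk (ρ (g * h) w) = _
        rw [map_mul, Module.End.mul_apply]
        rfl }
  have hρW := linear hn hΛ hfg hlt (Module.finBasis F W) (Module.finBasis F W).span_eq ρW
  have hρQ := linear hn hΛ hfg hlt2 (Module.finBasis F (V ⧸ W))
    (Module.finBasis F (V ⧸ W)).span_eq ρQ
  have hfix : ∀ g, ∀ w ∈ W, ρ g w = w := by
    intro g w hw
    have h2 := LinearMap.congr_fun (DFunLike.congr_fun hρW g) ⟨w, hw⟩
    exact congrArg Subtype.val h2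
  have hmem : ∀ g v, ρ g v - v ∈ W := by
    intro g v
    have h2 := LinearMap.congr_fun (DFunLike.congr_fun hρQ g) (Submodule.Quotient.mk v)
    have h3 : (Submodule.Quotient.mk (ρ g v) : V ⧸ W) = Submodule.Quotient.mk v := h2
    exact (Submodule.Quotient.eq W).1 h3
  ext1 g
  apply LinearMap.ext
  intro v
  let f : Λ →* Multiplicative V := MonoidHom.mk' (fun g => Multiplicative.ofAdd (ρ g v - v)) (by
    intro g h
    rw [← ofAdd_add]
    congr 1
    have h4 : ρ g (ρ h v - v) = ρ h v - v := hfix g _ (hmem h v)
    rw [map_sub] at h4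
    rw [map_mul, Module.End.mul_apply]
    have h5 : ρ g (ρ h v) = ρ h v - v + ρ g v := sub_eq_iff_eq_add.1 h4
    rw [h5]
    abel)
  have h6 := DFunLike.congr_fun (perfect hn hΛ hfg f) g
  have h7 : ρ g v - v = 0 := h6
  exact sub_eq_zero.1 h7

/-- actions on sets with at most `n` points are trivial -/
theorem perm (hn : 3 ≤ n) (hΛ : FQ n Λ) (hfg : Group.FG Λ) {X : Type*} [Fintype X]
    (hX : Fintype.card X ≤ n) (φ : Λ →* Equiv.Perm X) : φ = 1 := by
  classical
  rcases isEmpty_or_nonempty X with hE | ⟨⟨x₀⟩⟩
  · ext g x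
    exact hE.elim x
  let ρ : Λ →* Module.End ℤ (X → ℤ) :=
    { toFun := fun g => LinearMap.funLeft ℤ ℤ (φ g⁻¹)
      map_one' := by
        apply LinearMap.ext
        intro f
        funext x
        simp [LinearMap.funLeft_apply]
      map_mul' := by
        intro g h
        apply LinearMap.ext
        intro f
        funext x
        simp [LinearMap.funLeft_apply] }
  have hρ : ∀ g x, ρ g (Pi.single x 1) = Pi.single (φ g x) 1 := by
    intro g x
    funext y
    show (Pi.single x 1 : X → ℤ) (φ g⁻¹ y) = _
    have h1 : φ g⁻¹ y = x ↔ y = φ g x := by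
      rw [map_inv, Equiv.Perm.inv_eq_iff_eq]
    by_cases h2 : y = φ g x
    · rw [h1.2 h2, h2]
      simp
    · rw [Pi.single_eq_of_ne h2, Pi.single_eq_of_ne (fun h => h2 (h1.1 h))]
  let s : {x : X // x ≠ x₀} → (X → ℤ) := fun x => Pi.single x.1 1 - Pi.single x₀ 1
  let A : Submodule ℤ (X → ℤ) := Submodule.span ℤ (Set.range s)
  have hA : ∀ x y : X, (Pi.single x 1 - Pi.single y 1 : X → ℤ) ∈ A := by
    have h1 : ∀ x : X, (Pi.single x 1 - Pi.single x₀ 1 : X → ℤ) ∈ A := by
      intro x
      by_cases hx : x = x₀
      · rw [hx, sub_self]; exact A.zero_mem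
      · exact Submodule.subset_span ⟨⟨x, hx⟩, rfl⟩
    intro x y
    have h2 := A.sub_mem (h1 x) (h1 y)
    simpa using h2
  have hst : ∀ g, ∀ w ∈ A, ρ g w ∈ A := by
    intro g w hw
    induction hw using Submodule.span_induction with
    | mem w hw =>
      obtain ⟨x, rfl⟩ := hw
      show ρ g (Pi.single x.1 1 - Pi.single x₀ 1) ∈ A
      rw [map_sub, hρ, hρ]
      exact hA _ _
    | zero => rw [map_zero]; exact A.zero_mem
    | add a b _ _ ha hb => rw [map_add]; exact A.add_mem ha hb
    | smul r a _ ha => rw [map_smul]; exact A.smul_mem _ ha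
  let ρA : Λ →* Module.End ℤ A :=
    { toFun := fun g => (ρ g).restrict (hst g)
      map_one' := by
        apply LinearMap.ext
        intro w
        apply Subtype.ext
        show ρ 1 (w : X → ℤ) = w
        rw [map_one, Module.End.one_apply]
      map_mul' := by
        intro g h
        apply LinearMap.ext
        intro w
        apply Subtype.ext
        show ρ (g * h) (w : X → ℤ) = ρ g (ρ h w)
        rw [map_mul, Module.End.mul_apply] }
  have hcard : Fintype.card {x : X // x ≠ x₀} < n := by
    have h1 : Fintype.card {x : X // x ≠ x₀} = Fintype.card X - 1 := by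
      simp [Fintype.card_subtype_compl]
    have h2 : 0 < Fintype.card X := Fintype.card_pos_iff.2 ⟨x₀⟩
    omega
  let e := (Fintype.equivFin {x : X // x ≠ x₀}).symm
  have hspan : Submodule.span ℤ (Set.range fun i =>
      (⟨s (e i), Submodule.subset_span ⟨e i, rfl⟩⟩ : A)) = ⊤ := by
    apply Submodule.map_injective_of_injective A.injective_subtype
    rw [Submodule.map_span, ← Set.range_comp, Submodule.map_top, Submodule.range_subtype]
    show Submodule.span ℤ (Set.range (s ∘ e)) = A
    rw [e.surjective.range_comp]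
  have hρA := linear hn hΛ hfg hcard _ hspan ρA
  have hfix : ∀ g x y, (Pi.single (φ g x) 1 - Pi.single (φ g y) 1 : X → ℤ) =
      Pi.single x 1 - Pi.single y 1 := by
    intro g x y
    have h2 := LinearMap.congr_fun (DFunLike.congr_fun hρA g) ⟨_, hA x y⟩
    have h3 : ρ g (Pi.single x 1 - Pi.single y 1) = Pi.single x 1 - Pi.single y 1 :=
      congrArg Subtype.val h2
    rwa [map_sub, hρ, hρ] at h3
  ext g x
  rw [MonoidHom.one_apply, Equiv.Perm.one_apply]
  by_contra hne
  have h4 := congrFun (hfix g x (φ g x)) (φ g x)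
  have h5 : φ g (φ g x) ≠ φ g x := fun h => hne ((φ g).injective h)
  simp only [Pi.sub_apply, Pi.single_eq_same, Pi.single_eq_of_ne h5.symm,
    Pi.single_eq_of_ne hne] at h4
  omega

end Pool.Agent.N829.PR
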