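import Pool.Agent.N829.PR.Sup

/-!
# Representations of degree `< n` of finite index subgroups over commutative rings
-/

set_option autoImplicit false

namespace Pool.Agent.N829.PR

open Module

variable {n : ℕ} {Λ : Type} [Group Λ]

lemma ker_fi {G A : Type*} [Group G] [Monoid A] (ρ : G →* A) (h : (Set.range ρ).Finite) :
    ρ.toHomUnits.ker.FiniteIndex := by
  have h12 : Finite (Set.range ρ) := h.to_subtype
  have : Finite ρ.toHomUnits.range := by
    refine Finite.of_injective (fun u : ρ.toHomUnits.range => (⟨(u : Aˣ).val, by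
      obtain ⟨g, hg⟩ := u.2
      exact ⟨g, by rw [← hg]; rfl⟩⟩ : Set.range ρ)) ?_
    intro u v huv
    exact Subtype.ext (Units.ext (congrArg Subtype.val huv))
  exact Subgroup.finiteIndex_ker _

lemma range_fi {G A : Type*} [Group G] [Monoid A] (ρ : G →* A) (h : ρ.toHomUnits.ker.FiniteIndex) :
    (Set.range ρ).Finite := by
  have h1 : Finite ρ.toHomUnits.range :=
    Finite.of_equiv _ (QuotientGroup.quotientKerEquivRange ρ.toHomUnits).toEquiv
  have h2 : (Set.range fun u : ρ.toHomUnits.range => (u : Aˣ).val).Finite := Set.finite_range _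
  refine h2.subset ?_
  rintro _ ⟨g, rfl⟩
  exact ⟨⟨ρ.toHomUnits g, ⟨g, rfl⟩⟩, rfl⟩

/-- homomorphisms of finite index subgroups to commutative groups have finite image -/
theorem fab (hn : 3 ≤ n) (hV : VP n Λ) (H : Subgroup Λ) [hH : H.FiniteIndex] {A : Type*}
    [CommGroup A] (f : H →* A) : Finite f.range := by
  classical
  have := hV.1
  have hHfg : Group.FG H := inferInstance
  have hfg : Group.FG f.range := Group.fg_range f
  have hfg2 : AddGroup.FG (Additive f.range) := inferInstance
  obtain ⟨r, ι, _, p, hp, e, ⟨E⟩⟩ :=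
    AddCommGroup.equiv_free_prod_directSum_zmod (Additive f.range)
  have hfst : ∀ x : Additive f.range, (E x).1 = 0 := by
    intro x
    obtain ⟨h, hh⟩ := f.rangeRestrict_surjective x.toMul
    ext i
    let L : Additive f.range →+ ℝ := (Int.castAddHom ℝ).comp
      ((Finsupp.applyAddHom i).comp ((AddMonoidHom.fst _ _).comp E.toAddMonoidHom))
    let f' : H →* Multiplicative ℝ :=
      MonoidHom.mk' (fun h => Multiplicative.ofAdd (L (Additive.ofMul (f.rangeRestrict h)))) (by
        intro a b
        rw [map_mul, ofMul_mul, map_add]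
        rfl)
    have h1 := DFunLike.congr_fun (virt_ab hn hV H f') h
    have h2 : L (Additive.ofMul (f.rangeRestrict h)) = 0 := h1
    rw [hh] at h2
    have h3 : (((E x).1 i : ℤ) : ℝ) = 0 := h2
    exact_mod_cast h3
  have htor : IsAddTorsion (Additive f.range) := by
    intro x
    rw [isOfFinAddOrder_iff_nsmul_eq_zero]
    refine ⟨∏ i, p i ^ e i, Finset.prod_pos fun i _ => pow_pos (hp i).pos _, ?_⟩
    apply E.injective
    rw [map_nsmul, map_zero]
    apply Prod.ext
    · rw [Prod.smul_fst, hfst, smul_zero]; rfl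
    · apply DFinsupp.ext
      intro i
      show (∏ i, p i ^ e i) • ((E x).2 i) = 0
      rw [nsmul_eq_mul]
      have : ((∏ i, p i ^ e i : ℕ) : ZMod (p i ^ e i)) = 0 :=
        (ZMod.natCast_eq_zero_iff _ _).2 (Finset.dvd_prod_of_mem _ (Finset.mem_univ i))
      rw [this, zero_mul]
  have h4 := AddCommGroup.finite_of_fg_isAddTorsion (Additive f.range) htor
  exact Finite.of_equiv (Additive f.range) Additive.toMul

/-- representations of finite index subgroups over Noetherian commutative rings -/
theorem noeth (hn : 3 ≤ n) (hV : VP n Λ) (H : Subgroup Λ) [hH : H.FiniteIndex] {m : ℕ}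
    (hm : m < n) (R : Type) [CommRing R] [IsNoetherianRing R]
    (ρ : H →* Matrix (Fin m) (Fin m) R) : (Set.range ρ).Finite := by
  classical
  -- a finite index subgroup which is trivial modulo the nilradical
  have hmin : (minimalPrimes R).Finite := minimalPrimes.finite_of_isNoetherianRing R
  have hker : ∀ P ∈ minimalPrimes R, ∃ K : Subgroup H, K.FiniteIndex ∧
      ∀ h ∈ K, ∀ a b, (ρ h - 1) a b ∈ P := by
    intro P hP
    have hPp : P.IsPrime := Ideal.minimalPrimes_isPrime hP
    let F := FractionRing (R ⧸ P)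
    let ι : R →+* F := (algebraMap (R ⧸ P) F).comp (Ideal.Quotient.mk P)
    let ρP : H →* Matrix (Fin m) (Fin m) F := (ι.mapMatrix (m := Fin m)).toMonoidHom.comp ρ
    refine ⟨ρP.toHomUnits.ker, ker_fi ρP (hV.2 H m hm F ρP), ?_⟩
    intro h hh a b
    have h1 : ρP h = 1 := congrArg Units.val (show ρP.toHomUnits h = 1 from hh)
    have h2 : ι (ρ h a b) = ι ((1 : Matrix (Fin m) (Fin m) R) a b) := by
      have h3 := congrFun (congrFun h1 a) b
      have h4 : ι (ρ h a b) = (1 : Matrix (Fin m) (Fin m) F) a b := h3
      rw [h4, Matrix.one_apply, Matrix.one_apply]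
      split_ifs
      · rw [map_one]
      · rw [map_zero]
    have h5 : Ideal.Quotient.mk P (ρ h a b) =
        Ideal.Quotient.mk P ((1 : Matrix (Fin m) (Fin m) R) a b) :=
      IsFractionRing.injective (R ⧸ P) F h2
    rw [Matrix.sub_apply]
    exact Ideal.Quotient.eq.1 h5
  choose! K hKf hK using hker
  have hbase : ∃ H' : Subgroup H, H'.FiniteIndex ∧
      ∀ h ∈ H', ∀ a b, (ρ h - 1) a b ∈ nilradical R ^ 1 := by
    have hfin : Finite (minimalPrimes R) := hmin.to_subtype
    refine ⟨⨅ P : minimalPrimes R, K P, ?_, ?_⟩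
    · exact Subgroup.finiteIndex_iInf fun P => hKf P P.2
    · intro h hh a b
      rw [pow_one, nilradical, ← Ideal.sInf_minimalPrimes, Ideal.mem_sInf]
      intro P hP
      exact hK P hP h ((Subgroup.mem_iInf.1 hh) ⟨P, hP⟩) a b
  -- the powers of the nilradical
  have hstep : ∀ j : ℕ, ∃ H' : Subgroup H, H'.FiniteIndex ∧
      ∀ h ∈ H', ∀ a b, (ρ h - 1) a b ∈ nilradical R ^ (j + 1) := by
    intro j
    induction j with
    | zero => exact hbase
    | succ j ih =>
      obtain ⟨H', hH', hρ⟩ := ih
      let I : Ideal R := nilradical R ^ (j + 1 + 1)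
      let f : H' →* Multiplicative (Matrix (Fin m) (Fin m) (R ⧸ I)) :=
        MonoidHom.mk' (fun h => Multiplicative.ofAdd ((Ideal.Quotient.mk I).mapMatrix (ρ h - 1))) (by
          intro g h
          rw [← ofAdd_add, ← map_add]
          congr 1
          have e1 : ρ ((g * h : H') : H) - 1 = (ρ g - 1) + (ρ h - 1) + (ρ g - 1) * (ρ h - 1) := by
            rw [Subgroup.coe_mul, map_mul]
            noncomm_ring
          have e2 : (Ideal.Quotient.mk I).mapMatrix ((ρ g - 1) * (ρ h - 1)) = 0 := by
            ext a b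
            show Ideal.Quotient.mk I (((ρ g - 1) * (ρ h - 1)) a b) = 0
            rw [Ideal.Quotient.eq_zero_iff_mem, Matrix.mul_apply]
            refine I.sum_mem fun c _ => ?_
            have e3 := Ideal.mul_mem_mul (hρ g g.2 a c) (hρ h h.2 c b)
            rw [← pow_add] at e3
            exact Ideal.pow_le_pow_right (by omega) e3
          rw [e1, map_add, e2, add_zero])
      let H'' : Subgroup Λ := H'.map H.subtype
      have hH'' : H''.FiniteIndex := ⟨by
        rw [Subgroup.index_map_subtype]
        exact mul_ne_zero hH'.index_ne_zero hH.index_ne_zero⟩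
      let e : H' ≃* H'' := H'.equivMapOfInjective H.subtype H.subtype_injective
      have hfr : Finite (f.comp e.symm.toMonoidHom).range :=
        fab hn hV H'' (f.comp e.symm.toMonoidHom)
      have hfr2 : Finite f.range := by
        have : f.range = (f.comp e.symm.toMonoidHom).range := by
          ext z
          constructor
          · rintro ⟨h, rfl⟩
            exact ⟨e h, by
              show f (e.symm (e h)) = f h
              rw [MulEquiv.symm_apply_apply]⟩
          · rintro ⟨h, rfl⟩
            exact ⟨e.symm h, rfl⟩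
        rw [this]
        exact hfr
      have hkf : f.ker.FiniteIndex := Subgroup.finiteIndex_ker f
      refine ⟨f.ker.map H'.subtype, ⟨by
        rw [Subgroup.index_map_subtype]
        exact mul_ne_zero hkf.index_ne_zero hH'.index_ne_zero⟩, ?_⟩
      rintro _ ⟨h, hh, rfl⟩ a b
      have e4 : (Ideal.Quotient.mk I).mapMatrix (ρ h - 1) = 0 := hh
      have e5 := congrFun (congrFun e4 a) b
      exact Ideal.Quotient.eq_zero_iff_mem.1 e5
  obtain ⟨t, ht⟩ := IsNoetherianRing.isNilpotent_nilradical R
  obtain ⟨H', hH', hρ⟩ := hstep t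
  apply range_fi
  refine Subgroup.finiteIndex_of_le (H := H') ?_
  intro h hh
  rw [MonoidHom.mem_ker]
  apply Units.ext
  show ρ h = 1
  have h0 : nilradical R ^ (t + 1) = 0 := by rw [pow_succ, ht, zero_mul]
  rw [← sub_eq_zero]
  ext a b
  have h6 := hρ h hh a b
  rw [h0] at h6
  exact h6

/-- representations of finite index subgroups over commutative rings -/
theorem ring_all (hn : 3 ≤ n) (hV : VP n Λ) (H : Subgroup Λ) [hH : H.FiniteIndex] {m : ℕ}
    (hm : m < n) (R : Type) [CommRing R]
    (ρ : H →* Matrix (Fin m) (Fin m) R) : (Set.range ρ).Finite := by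
  classical
  have := hV.1
  have hNfg : Group.FG H := inferInstance
  obtain ⟨S, hS, hSf⟩ := Monoid.fg_iff.1 (Group.fg_iff_monoid_fg.1 hNfg)
  let C : Set R := ⋃ s ∈ S, Set.range (fun p : Fin m × Fin m => ρ s p.1 p.2)
  have hCf : C.Finite := Set.Finite.biUnion hSf fun s _ => Set.finite_range _
  let R₀ : Subalgebra ℤ R := Algebra.adjoin ℤ C
  have hR₀ : Algebra.FiniteType ℤ R₀ := by
    rw [← Subalgebra.fg_iff_finiteType]
    exact Subalgebra.fg_def.2 ⟨C, hCf, rfl⟩
  have hent : ∀ g : H, ∀ i j, ρ g i j ∈ R₀ := by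
    intro g
    have hg : g ∈ Submonoid.closure S := by rw [hS]; trivial
    induction hg using Submonoid.closure_induction with
    | mem s hs =>
      intro i j
      exact Algebra.subset_adjoin (Set.mem_biUnion hs ⟨(i, j), rfl⟩)
    | one =>
      intro i j
      rw [map_one, Matrix.one_apply]
      split_ifs
      · exact R₀.one_mem
      · exact R₀.zero_mem
    | mul g h _ _ hg hh =>
      intro i j
      rw [map_mul, Matrix.mul_apply]
      exact R₀.sum_mem fun l _ => R₀.mul_mem (hg i l) (hh l j)
  let ρ₀ : H →* Matrix (Fin m) (Fin m) R₀ :=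
    { toFun := fun g => Matrix.of fun i j => ⟨ρ g i j, hent g i j⟩
      map_one' := by
        ext i j
        show ρ 1 i j = ((1 : Matrix (Fin m) (Fin m) R₀) i j : R)
        rw [map_one, Matrix.one_apply, Matrix.one_apply]
        split_ifs <;> rfl
      map_mul' := by
        intro g h
        ext i j
        show ρ (g * h) i j = _
        rw [map_mul, Matrix.mul_apply, Matrix.mul_apply]
        push_cast
        rfl }
  have hNoe : IsNoetherianRing R₀ := Algebra.FiniteType.isNoetherianRing ℤ R₀
  have h1 := noeth hn hV H hm R₀ ρ₀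
  refine (h1.image fun A => A.map fun x : R₀ => (x : R)).subset ?_
  rintro _ ⟨g, rfl⟩
  exact ⟨ρ₀ g, ⟨g, rfl⟩, rfl⟩

end Pool.Agent.N829.PR
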