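import Pool.Agent.N829.PR.Heis
import Pool.Agent.H185.ZM.Euc

/-!
# Low-dimensional actions of `SL_n(ℤ)` on modules
-/

set_option autoImplicit false

namespace Pool.Agent.N829.PR

open Module Matrix Pool.Agent.H185.ZM

variable {n : ℕ}

lemma third (hn : 3 ≤ n) (a b : Fin n) : ∃ m, m ≠ a ∧ m ≠ b := by
  have h1 : ({a, b} : Finset (Fin n)).card < Fintype.card (Fin n) := by
    rw [Fintype.card_fin]
    exact lt_of_le_of_lt Finset.card_le_two (by omega)
  obtain ⟨m, hm⟩ := Finset.exists_mem_notMem_of_card_lt_card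
    (s := {a, b}) (t := Finset.univ) (by simpa using h1)
  have h2 := hm.2
  simp only [Finset.mem_insert, Finset.mem_singleton, not_or] at h2
  exact ⟨m, h2⟩

lemma inj_of_hom {G R M : Type*} [Group G] [Semiring R] [AddCommMonoid M] [Module R M]
    (ρ : G →* Module.End R M) (g : G) (v : M) (h : ρ g v = 0) : v = 0 := by
  have h1 : ρ g⁻¹ (ρ g v) = v := by
    rw [← Module.End.mul_apply, ← map_mul, inv_mul_cancel, map_one, Module.End.one_apply]
  rw [← h1, h, map_zero]

section closed

variable {F : Type*} [Field F] [IsAlgClosed F] {V : Type*} [AddCommGroup V] [Module F V]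
  [FiniteDimensional F V]

theorem sl_scalar (hd : finrank F V < n)
    (ρ : Matrix.SpecialLinearGroup (Fin n) ℤ →* Module.End F V) {i k : Fin n} (hik : i ≠ k) :
    ∃ l : F, ∀ v, ρ (el hik 1) v = l • v := by
  classical
  let κ := {l : Fin n // l ≠ i ∧ l ≠ k}
  have hcard : Fintype.card κ + 2 = n := by
    have h1 : Fintype.card κ = ((Finset.univ.erase i).erase k : Finset (Fin n)).card := by
      rw [Fintype.card_subtype]
      congr 1
      ext l
      simp [and_comm]
    rw [h1, Finset.card_erase_of_mem (by simp [hik.symm]), Finset.card_erase_of_mem (by simp)]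
    simp
    have := i.2
    have h2 : i.1 ≠ k.1 := fun h => hik (Fin.ext h)
    have := k.2
    omega
  have hmul : ∀ (x y : Matrix.SpecialLinearGroup (Fin n) ℤ) (v : V), ρ x (ρ y v) = ρ (x * y) v := by
    intro x y v
    rw [map_mul, Module.End.mul_apply]
  have hs : Hs (fun j : κ => ρ (el j.2.1.symm 1)) (fun j : κ => ρ (el j.2.2 1))
      (ρ (el hik 1)) := by
    refine ⟨?_, ?_, ?_, ?_, ?_, ?_, ?_, ?_⟩
    · intro j l v
      simp only [hmul]
      rw [el_commute _ _ j.2.1 l.2.1.symm]
    · intro j l v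
      simp only [hmul]
      rw [el_commute _ _ l.2.2.symm j.2.2]
    · intro j l hjl v
      simp only [hmul]
      rw [el_commute _ _ (fun h => hjl (Subtype.ext h)) hik]
    · intro j v
      simp only [hmul]
      rw [el_comm _ _ hik, mul_one]
    · intro j v
      simp only [hmul]
      rw [el_commute _ _ j.2.1 hik]
    · intro j v
      simp only [hmul]
      rw [el_commute _ _ hik.symm j.2.2]
    · intro j v h
      exact inj_of_hom ρ _ v h
    · intro j v h
      exact inj_of_hom ρ _ v h
  exact scalar hs (by omega)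

theorem sl_closed (hn : 3 ≤ n) (hd : finrank F V < n)
    (ρ : Matrix.SpecialLinearGroup (Fin n) ℤ →* Module.End F V) {i j : Fin n} (hij : i ≠ j) :
    ρ (el hij 1) = 1 := by
  obtain ⟨k, hki, hkj⟩ := third hn i j
  obtain ⟨l, hl⟩ := sl_scalar hd ρ hki.symm
  have h1 := el_comm hki.symm hkj hij (1 : ℤ) 1
  rw [mul_one] at h1
  ext w
  set v := ρ (el hkj (1 : ℤ) * el hki.symm 1)⁻¹ w with hv
  have hw : ρ (el hkj (1 : ℤ)) (ρ (el hki.symm 1) v) = w := by
    rw [hv, ← Module.End.mul_apply, ← map_mul, ← Module.End.mul_apply, ← map_mul,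
      mul_inv_cancel, map_one, Module.End.one_apply]
  have h3 : ρ (el hij 1) w = ρ (el hki.symm (1 : ℤ)) (ρ (el hkj 1) v) := by
    conv_lhs => rw [← hw]
    simp only [← Module.End.mul_apply, ← map_mul]
    rw [h1]
  rw [h3, hl, ← map_smul, ← hl, hw, Module.End.one_apply]

end closed

section field

variable {F : Type*} [Field F] {V : Type*} [AddCommGroup V] [Module F V]
  [FiniteDimensional F V]

open TensorProduct in
theorem sl_field (hn : 3 ≤ n) (hd : finrank F V < n)
    (ρ : Matrix.SpecialLinearGroup (Fin n) ℤ →* Module.End F V) {i j : Fin n} (hij : i ≠ j) :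
    ρ (el hij 1) = 1 := by
  have h1 := sl_closed (F := AlgebraicClosure F) (V := AlgebraicClosure F ⊗[F] V) hn
    (by rwa [Module.finrank_baseChange])
    ((Module.End.baseChangeHom F (AlgebraicClosure F) V : Module.End F V →* _).comp ρ) hij
  ext v
  have h2 := LinearMap.congr_fun h1 ((1 : AlgebraicClosure F) ⊗ₜ[F] v)
  have h3 : (1 : AlgebraicClosure F) ⊗ₜ[F] (ρ (el hij 1) v) =
      (1 : AlgebraicClosure F) ⊗ₜ[F] v := h2
  exact Module.FaithfullyFlat.tensorProduct_mk_injective (A := F) (B := AlgebraicClosure F) V h3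

end field

section ring

variable {R : Type*} [CommRing R] {M : Type*} [AddCommGroup M] [Module R M]

/-- reduction of endomorphisms -/
noncomputable def red (I : Ideal R) :
    Module.End R M →* Module.End R (M ⧸ (I • (⊤ : Submodule R M))) where
  toFun f := Submodule.mapQ _ _ f (by
    rw [← Submodule.map_le_iff_le_comap, Submodule.map_smul'']
    exact Submodule.smul_mono le_rfl le_top)
  map_one' := by
    apply LinearMap.ext
    intro x
    obtain ⟨y, rfl⟩ := Submodule.Quotient.mk_surjective _ x
    rfl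
  map_mul' f g := by
    apply LinearMap.ext
    intro x
    obtain ⟨y, rfl⟩ := Submodule.Quotient.mk_surjective _ x
    rfl

lemma red_mk (I : Ideal R) (f : Module.End R M) (x : M) :
    red I f (Submodule.Quotient.mk x) = Submodule.Quotient.mk (f x) := rfl

/-- reduction of endomorphisms, over the residue ring -/
noncomputable def redr (I : Ideal R) :
    Module.End R M →* Module.End (R ⧸ I) (M ⧸ (I • (⊤ : Submodule R M))) where
  toFun f :=
    { toFun := red I f
      map_add' := map_add _
      map_smul' := by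
        intro r x
        obtain ⟨s, rfl⟩ := Ideal.Quotient.mk_surjective r
        obtain ⟨y, rfl⟩ := Submodule.Quotient.mk_surjective _ x
        rw [Module.Quotient.mk_smul_mk, red_mk, red_mk, map_smul]
        rfl }
  map_one' := by
    apply LinearMap.ext
    intro x
    obtain ⟨y, rfl⟩ := Submodule.Quotient.mk_surjective _ x
    rfl
  map_mul' f g := by
    apply LinearMap.ext
    intro x
    obtain ⟨y, rfl⟩ := Submodule.Quotient.mk_surjective _ x
    rfl

lemma redr_mk (I : Ideal R) (f : Module.End R M) (x : M) :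
    redr I f (Submodule.Quotient.mk x) = Submodule.Quotient.mk (f x) := rfl

/-- the vector space case over a maximal ideal -/
theorem sl_mod (hn : 3 ≤ n) {m : ℕ} (hm : m < n) (x : Fin m → M)
    (hx : Submodule.span R (Set.range x) = ⊤) (I : Ideal R) [hI : I.IsMaximal]
    (τ : Matrix.SpecialLinearGroup (Fin n) ℤ →* Module.End R M) {i j : Fin n} (hij : i ≠ j)
    (w : M) : τ (el hij 1) w - w ∈ I • (⊤ : Submodule R M) := by
  letI : Field (R ⧸ I) := Ideal.Quotient.field I
  have hspan : Submodule.span (R ⧸ I) (Set.range fun a =>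
      (Submodule.Quotient.mk (x a) : M ⧸ (I • (⊤ : Submodule R M)))) = ⊤ := by
    rw [eq_top_iff]
    intro y _
    obtain ⟨y, rfl⟩ := Submodule.Quotient.mk_surjective _ y
    have hy : y ∈ Submodule.span R (Set.range x) := by rw [hx]; trivial
    induction hy using Submodule.span_induction with
    | mem y hy =>
      obtain ⟨a, rfl⟩ := hy
      exact Submodule.subset_span ⟨a, rfl⟩
    | zero => exact Submodule.zero_mem _
    | add y z _ _ hy hz =>
      rw [Submodule.Quotient.mk_add]
      exact Submodule.add_mem _ (hy trivial) (hz trivial)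
    | smul r y _ hy =>
      rw [← Module.Quotient.mk_smul_mk]
      exact Submodule.smul_mem _ _ (hy trivial)
  have hfin : Module.Finite (R ⧸ I) (M ⧸ (I • (⊤ : Submodule R M))) :=
    ⟨⟨(Set.finite_range _).toFinset, by rw [Set.Finite.coe_toFinset]; exact hspan⟩⟩
  have hrank : finrank (R ⧸ I) (M ⧸ (I • (⊤ : Submodule R M))) < n := by
    have h1 := finrank_range_le_card (R := R ⧸ I) (fun a =>
      (Submodule.Quotient.mk (x a) : M ⧸ (I • (⊤ : Submodule R M))))
    rw [Set.finrank, hspan, finrank_top, Fintype.card_fin] at h1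
    omega
  have h1 := sl_field (F := R ⧸ I) (V := M ⧸ (I • (⊤ : Submodule R M))) hn hrank
    ((redr I).comp τ) hij
  have h2 := LinearMap.congr_fun h1 (Submodule.Quotient.mk w)
  rw [← Submodule.Quotient.eq]
  exact h2

/-- lifting over powers of an ideal -/
theorem lift_pow (hn : 3 ≤ n) (I : Ideal R)
    (τ : Matrix.SpecialLinearGroup (Fin n) ℤ →* Module.End R M)
    (h : ∀ {i j : Fin n} (hij : i ≠ j) (w : M), τ (el hij 1) w - w ∈ I • (⊤ : Submodule R M))
    (l : ℕ) : ∀ {i j : Fin n} (hij : i ≠ j) (w : M),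
      τ (el hij 1) w - w ∈ I ^ (l + 1) • (⊤ : Submodule R M) := by
  induction l with
  | zero =>
    intro i j hij w
    rw [zero_add, pow_one]
    exact h hij w
  | succ l ih =>
    intro i k hik w'
    obtain ⟨j, hji, hjk⟩ := third hn i k
    have key : ∀ {i j : Fin n} (hij : i ≠ j) (v : M), v ∈ I ^ (l + 1) • (⊤ : Submodule R M) →
        τ (el hij 1) v - v ∈ I ^ (l + 1 + 1) • (⊤ : Submodule R M) := by
      intro i j hij v hv
      have h1 : (τ (el hij 1) - 1) v ∈
          (I ^ (l + 1) • (⊤ : Submodule R M)).map (τ (el hij 1) - 1) := ⟨v, hv, rfl⟩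
      rw [Submodule.map_smul''] at h1
      have h2 : Submodule.map (τ (el hij 1) - 1) ⊤ ≤ I • (⊤ : Submodule R M) := by
        rintro _ ⟨y, _, rfl⟩
        exact h hij y
      have h3 := Submodule.smul_mono (le_refl (I ^ (l + 1))) h2 h1
      rw [pow_succ, Submodule.mul_smul]
      exact h3
    have hc := el_comm hji.symm hjk hik (1 : ℤ) 1
    rw [mul_one] at hc
    set w := τ (el hjk (1 : ℤ) * el hji.symm 1)⁻¹ w' with hw
    have e1 : τ (el hjk (1 : ℤ)) (τ (el hji.symm 1) w) = w' := by
      rw [hw, ← Module.End.mul_apply, ← map_mul, ← Module.End.mul_apply, ← map_mul,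
        mul_inv_cancel, map_one, Module.End.one_apply]
    have e2 : τ (el hik 1) w' = τ (el hji.symm (1 : ℤ)) (τ (el hjk 1) w) := by
      conv_lhs => rw [← e1]
      simp only [← Module.End.mul_apply, ← map_mul]
      rw [hc]
    have e3 : τ (el hik 1) w' - w' =
        (τ (el hji.symm (1 : ℤ)) (τ (el hjk 1) w - w) - (τ (el hjk 1) w - w)) -
        (τ (el hjk (1 : ℤ)) (τ (el hji.symm 1) w - w) - (τ (el hji.symm 1) w - w)) := by
      rw [e2]
      conv_lhs => rw [← e1]
      simp only [map_sub]
      abel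
    rw [e3]
    exact Submodule.sub_mem _ (key _ _ (ih _ _)) (key _ _ (ih _ _))

/-- the action on a module generated by few elements and killed by a power of a maximal ideal -/
theorem sl_art (hn : 3 ≤ n) {m : ℕ} (hm : m < n) (x : Fin m → M)
    (hx : Submodule.span R (Set.range x) = ⊤) (I : Ideal R) [hI : I.IsMaximal] (k : ℕ)
    (hk : I ^ k • (⊤ : Submodule R M) = ⊥)
    (τ : Matrix.SpecialLinearGroup (Fin n) ℤ →* Module.End R M) : τ = 1 := by
  have h1 : ∀ {i j : Fin n} (hij : i ≠ j), τ (el hij 1) = 1 := by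
    intro i j hij
    ext w
    have h2 := lift_pow hn I τ (fun hij w => sl_mod hn hm x hx I τ hij w) k hij w
    have h3 : I ^ (k + 1) • (⊤ : Submodule R M) ≤ ⊥ := by
      rw [← hk]
      exact Submodule.smul_mono (Ideal.pow_le_pow_right (Nat.le_succ k)) le_rfl
    have h4 := h3 h2
    rw [Submodule.mem_bot, sub_eq_zero] at h4
    exact h4
  have h5 : (τ.ker : Subgroup (Matrix.SpecialLinearGroup (Fin n) ℤ)) = ⊤ := by
    rw [eq_top_iff, ← EE_eq_top (n := n) (R := ℤ)]
    unfold EE
    rw [Subgroup.closure_le]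
    rintro _ ⟨i, j, hij, c, rfl⟩
    have h6 : el hij c = (el hij (1 : ℤ)) ^ c := by
      induction c using Int.induction_on with
      | zero => rw [zpow_zero]; exact el_zero hij
      | succ c ih => rw [_root_.zpow_add_one, ← ih, ← el_add]
      | pred c ih => rw [_root_.zpow_sub_one, ← ih, el_inv, ← el_add]; rfl
    show el hij c ∈ τ.ker
    rw [h6]
    apply Subgroup.zpow_mem
    rw [MonoidHom.mem_ker]
    exact h1 hij
  ext1 g
  have : g ∈ τ.ker := by rw [h5]; trivial
  exact this

end ring

end Pool.Agent.N829.PR
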