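import Pool.Agent.N829.PR.Virt
import Pool.Agent.N829.PR.Gen

/-!
# Representations of degree `< n` of finite index subgroups
-/

set_option autoImplicit false

namespace Pool.Agent.N829.PR

open Module

open Pool.Agent.N702.CP (SLZ)

variable {n : ℕ} {Λ : Type} [Group Λ]

/-- representations over finite fields -/
theorem virt_fin (hΛ : FQ n Λ) {B k : ℕ}
    (hB : ∀ (Q : Type) [Group Q] [Finite Q] (θ : SLZ n →* Q), Function.Surjective θ →
      ∀ (N : Subgroup Q) [N.Normal], (∀ q : Q, q ^ k ∈ N) → ∀ (m : ℕ), m < n →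
      ∀ (F : Type) [Field F] (σ : N →* Matrix (Fin m) (Fin m) F), Nat.card (Set.range σ) ≤ B)
    (N : Subgroup Λ) [hN : N.Normal] [N.FiniteIndex] (hk : ∀ g : Λ, g ^ k ∈ N) {m : ℕ}
    (hm : m < n) (F : Type) [Field F] [Finite F] (ρ : N →* Matrix (Fin m) (Fin m) F) :
    Nat.card (Set.range ρ) ≤ B := by
  classical
  let ρu : N →* (Matrix (Fin m) (Fin m) F)ˣ := ρ.toHomUnits
  have hf : Finite ρu.range := inferInstance
  have hfi : ρu.ker.FiniteIndex := Subgroup.finiteIndex_ker ρu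
  let D₀ : Subgroup Λ := (ρu.ker).map N.subtype
  have hD₀ : D₀.FiniteIndex := ⟨by
    rw [Subgroup.index_map_subtype]
    exact mul_ne_zero hfi.index_ne_zero Subgroup.FiniteIndex.index_ne_zero⟩
  let D : Subgroup Λ := D₀.normalCore
  have hDfi : D.FiniteIndex := inferInstance
  obtain ⟨θ, hθ⟩ := hΛ (Λ ⧸ D) ⟨QuotientGroup.mk' D, QuotientGroup.mk'_surjective D⟩
  let NQ : Subgroup (Λ ⧸ D) := N.map (QuotientGroup.mk' D)
  have hNQ : NQ.Normal := hN.map _ (QuotientGroup.mk'_surjective D)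
  have wd : ∀ g g' : N, (QuotientGroup.mk (g : Λ) : Λ ⧸ D) = QuotientGroup.mk (g' : Λ) →
      ρ g = ρ g' := by
    intro g g' h
    have h1 : (g : Λ)⁻¹ * (g' : Λ) ∈ D := QuotientGroup.eq.1 h
    obtain ⟨w, hw, hw2⟩ := D₀.normalCore_le h1
    have h3 : g' = g * w := by
      apply Subtype.ext
      rw [Subgroup.coe_mul]
      have h4 : (w : Λ) = (g : Λ)⁻¹ * (g' : Λ) := hw2
      rw [h4]
      group
    have h5 : ρ w = 1 := by
      have h6 : ρu w = 1 := hw
      exact congrArg Units.val h6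
    rw [h3, map_mul, h5, mul_one]
  have hex : ∀ y : NQ, ∃ g : N, (QuotientGroup.mk (g : Λ) : Λ ⧸ D) = y := by
    rintro ⟨y, g, hg, rfl⟩
    exact ⟨⟨g, hg⟩, rfl⟩
  choose c hc using hex
  let σ : NQ →* Matrix (Fin m) (Fin m) F :=
    { toFun := fun y => ρ (c y)
      map_one' := by
        rw [← map_one ρ]
        exact wd _ _ (hc 1)
      map_mul' := by
        intro x y
        rw [← map_mul]
        apply wd
        rw [hc, Subgroup.coe_mul, Subgroup.coe_mul, QuotientGroup.mk_mul, hc, hc] }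
  have hr : Set.range σ = Set.range ρ := by
    ext z
    constructor
    · rintro ⟨y, rfl⟩
      exact ⟨c y, rfl⟩
    · rintro ⟨g, rfl⟩
      exact ⟨⟨QuotientGroup.mk (g : Λ), ⟨g, g.2, rfl⟩⟩, wd _ _ (hc _)⟩
  rw [← hr]
  refine hB (Λ ⧸ D) θ hθ NQ ?_ m hm F σ
  intro q
  obtain ⟨g, rfl⟩ := QuotientGroup.mk_surjective q
  exact ⟨g ^ k, hk g, rfl⟩

/-- representations over fields of finite index normal subgroups -/
theorem virt_field (hn : 3 ≤ n) (hΛ : FQ n Λ) (hfg : Group.FG Λ) (N : Subgroup Λ) [hN : N.Normal]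
    [N.FiniteIndex] {m : ℕ} (hm : m < n) (K : Type) [Field K]
    (ρ : N →* Matrix (Fin m) (Fin m) K) : (Set.range ρ).Finite := by
  classical
  have hk0 : 1 ≤ N.index := Nat.one_le_iff_ne_zero.2 Subgroup.FiniteIndex.index_ne_zero
  obtain ⟨B, hB⟩ := virt_bound n hn N.index hk0
  have hNfg : Group.FG N := inferInstance
  obtain ⟨S, hS, hSf⟩ := Monoid.fg_iff.1 (Group.fg_iff_monoid_fg.1 hNfg)
  let C : Set K := ⋃ s ∈ S, Set.range (fun p : Fin m × Fin m => ρ s p.1 p.2)
  have hCf : C.Finite := Set.Finite.biUnion hSf fun s _ => Set.finite_range _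
  let R₀ : Subalgebra ℤ K := Algebra.adjoin ℤ C
  have hR₀ : Algebra.FiniteType ℤ R₀ := by
    rw [← Subalgebra.fg_iff_finiteType]
    exact Subalgebra.fg_def.2 ⟨C, hCf, rfl⟩
  have hent : ∀ g : N, ∀ i j, ρ g i j ∈ R₀ := by
    intro g
    have hg : g ∈ Submonoid.closure S := by rw [hS]; trivial
    induction hg using Submonoid.closure_induction with
    | mem s hs =>
      intro i j
      exact Algebra.subset_adjoin (Set.mem_biUnion hs ⟨(i, j), rfl⟩)
    | one =>
      intro i j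
      rw [map_one, Matrix.one_apply]
      split_ifs
      · exact R₀.one_mem
      · exact R₀.zero_mem
    | mul g h _ _ hg hh =>
      intro i j
      rw [map_mul, Matrix.mul_apply]
      exact R₀.sum_mem fun l _ => R₀.mul_mem (hg i l) (hh l j)
  let ρ₀ : N →* Matrix (Fin m) (Fin m) R₀ :=
    { toFun := fun g => Matrix.of fun i j => ⟨ρ g i j, hent g i j⟩
      map_one' := by
        ext i j
        show ρ 1 i j = ((1 : Matrix (Fin m) (Fin m) R₀) i j : K)
        rw [map_one, Matrix.one_apply, Matrix.one_apply]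
        split_ifs <;> rfl
      map_mul' := by
        intro g h
        ext i j
        show ρ (g * h) i j = _
        rw [map_mul, Matrix.mul_apply, Matrix.mul_apply]
        push_cast
        rfl }
  by_contra hinf
  obtain ⟨t, ht, htc⟩ := Set.Infinite.exists_subset_card_eq hinf (B + 1)
  have hg : ∀ x : t, ∃ g : N, ρ g = x := fun x => ht x.2
  choose γ hγ using hg
  have hd : ∀ p : t × t, ∃ d : R₀, d ≠ 0 ∧ (p.1 ≠ p.2 →
      ∃ i j, d = ρ₀ (γ p.1) i j - ρ₀ (γ p.2) i j) := by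
    intro p
    by_cases hp : p.1 = p.2
    · exact ⟨1, one_ne_zero, fun h => absurd hp h⟩
    · have h1 : (p.1 : Matrix (Fin m) (Fin m) K) ≠ p.2 := fun h => hp (Subtype.ext h)
      obtain ⟨i, j, hij⟩ : ∃ i j, (p.1 : Matrix (Fin m) (Fin m) K) i j ≠
          (p.2 : Matrix (Fin m) (Fin m) K) i j := by
        by_contra hc
        push Not at hc
        exact h1 (Matrix.ext hc)
      refine ⟨ρ₀ (γ p.1) i j - ρ₀ (γ p.2) i j, ?_, fun _ => ⟨i, j, rfl⟩⟩
      intro h0
      apply hij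
      rw [← hγ, ← hγ]
      exact congrArg Subtype.val (sub_eq_zero.1 h0)
  choose d hd0 hd1 using hd
  have hP : (∏ p : t × t, d p) ≠ 0 := Finset.prod_ne_zero_iff.2 fun p _ => hd0 p
  have hJ : IsJacobsonRing ℤ := jac_int
  have hJR : IsJacobsonRing R₀ := isJacobsonRing_of_finiteType (A := ℤ)
  have hjac : (⊥ : Ideal R₀).jacobson = ⊥ :=
    IsJacobsonRing.out hJR (Ideal.isPrime_bot.isRadical)
  obtain ⟨I, hI, hPI⟩ : ∃ I : Ideal R₀, I.IsMaximal ∧ (∏ p : t × t, d p) ∉ I := by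
    by_contra hc
    push Not at hc
    apply hP
    have h1 : (∏ p : t × t, d p) ∈ (⊥ : Ideal R₀).jacobson := by
      rw [Ideal.jacobson, Ideal.mem_sInf]
      intro J hJ
      exact hc J hJ.2
    rw [hjac] at h1
    exact (Submodule.mem_bot R₀).1 h1
  let _ : Field (R₀ ⧸ I) := Ideal.Quotient.field I
  have hfin : Finite (R₀ ⧸ I) := residue_finite R₀ I
  let ρI : N →* Matrix (Fin m) (Fin m) (R₀ ⧸ I) :=
    ((Ideal.Quotient.mk I).mapMatrix (m := Fin m)).toMonoidHom.comp ρ₀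
  have h2 := virt_fin hΛ hB N (fun g => N.pow_index_mem g) hm (R₀ ⧸ I) ρI
  have hinj : Function.Injective (fun x : t => (⟨ρI (γ x), ⟨γ x, rfl⟩⟩ : Set.range ρI)) := by
    intro x y hxy
    by_contra hne
    obtain ⟨i, j, hij⟩ := hd1 (x, y) hne
    have h3 : d (x, y) ∉ I := by
      intro h4
      exact hPI (I.mem_of_dvd (Finset.dvd_prod_of_mem d (Finset.mem_univ (x, y))) h4)
    apply h3
    rw [hij]
    have h5 : ρI (γ x) = ρI (γ y) := congrArg Subtype.val hxy
    have h6 : Ideal.Quotient.mk I (ρ₀ (γ x) i j) = Ideal.Quotient.mk I (ρ₀ (γ y) i j) :=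
      congrFun (congrFun h5 i) j
    exact Ideal.Quotient.eq.1 h6
  have h7 := Nat.card_le_card_of_injective _ hinj
  rw [Nat.card_eq_fintype_card, Fintype.card_coe, htc] at h7
  have h8 : B + 1 ≤ B := h7.trans h2
  omega

/-- representations over fields of finite index subgroups -/
theorem virt_all (hn : 3 ≤ n) (hΛ : FQ n Λ) (hfg : Group.FG Λ) (H : Subgroup Λ)
    [hH : H.FiniteIndex] {m : ℕ} (hm : m < n) (K : Type) [Field K]
    (ρ : H →* Matrix (Fin m) (Fin m) K) : (Set.range ρ).Finite := by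
  classical
  let N : Subgroup Λ := H.normalCore
  have hNH : N ≤ H := H.normalCore_le
  have h1 := virt_field hn hΛ hfg N hm K (ρ.comp (Subgroup.inclusion hNH))
  have hfi : (N.subgroupOf H).FiniteIndex := inferInstance
  have hfq : Finite (H ⧸ N.subgroupOf H) := inferInstance
  have h2 : (Set.range fun q : H ⧸ N.subgroupOf H => ρ q.out).Finite := Set.finite_range _
  refine (Set.Finite.image2 (fun a b => a * b) h2 h1).subset ?_
  rintro _ ⟨g, rfl⟩
  refine ⟨ρ (QuotientGroup.mk g : H ⧸ N.subgroupOf H).out, ⟨_, rfl⟩, ?_⟩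
  obtain ⟨w, hw⟩ := QuotientGroup.mk_out_eq_mul (N.subgroupOf H) g
  have hw2 : ((w : H) : Λ) ∈ N := Subgroup.mem_subgroupOf.1 w.2
  refine ⟨ρ (w : H)⁻¹, ⟨(⟨_, hw2⟩ : N)⁻¹, ?_⟩, ?_⟩
  · show ρ (Subgroup.inclusion hNH (⟨_, hw2⟩ : N)⁻¹) = ρ (w : H)⁻¹
    congr 1
  · show ρ _ * ρ _ = ρ g
    rw [← map_mul, hw, mul_assoc, mul_inv_cancel, mul_one]

/-- all representations of degree `< n` over fields of the finite index subgroups of the finitely
generated group `Γ` have finite image -/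
def VP (n : ℕ) (Γ : Type) [Group Γ] : Prop :=
  Group.FG Γ ∧ ∀ (H : Subgroup Γ) [H.FiniteIndex] (m : ℕ), m < n → ∀ (K : Type) [Field K]
    (ρ : H →* Matrix (Fin m) (Fin m) K), (Set.range ρ).Finite

theorem vp (hn : 3 ≤ n) (hΛ : FQ n Λ) (hfg : Group.FG Λ) : VP n Λ :=
  ⟨hfg, fun H _ _ hm K _ ρ => virt_all hn hΛ hfg H hm K ρ⟩

theorem vp_sub (hV : VP n Λ) (Γ : Subgroup Λ) [hΓ : Γ.FiniteIndex] : VP n Γ := by
  have := hV.1
  refine ⟨inferInstance, ?_⟩
  intro H hH m hm K _ ρ
  let H' : Subgroup Λ := H.map Γ.subtype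
  have hH' : H'.FiniteIndex := ⟨by
    rw [Subgroup.index_map_subtype]
    exact mul_ne_zero hH.index_ne_zero hΓ.index_ne_zero⟩
  let e : H ≃* H' := H.equivMapOfInjective Γ.subtype Γ.subtype_injective
  refine (hV.2 H' m hm K (ρ.comp e.symm.toMonoidHom)).subset ?_
  rintro _ ⟨h, rfl⟩
  refine ⟨e h, ?_⟩
  show ρ (e.symm (e h)) = ρ h
  rw [MulEquiv.symm_apply_apply]

/-- finite index subgroups have no homomorphisms to real vector spaces -/
theorem virt_ab (hn : 3 ≤ n) (hV : VP n Λ) (H : Subgroup Λ)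
    [hH : H.FiniteIndex] {E : Type*} [AddCommGroup E] [Module ℝ E]
    (f : H →* Multiplicative E) : f = 1 := by
  ext1 g
  have key : ∀ l : E →ₗ[ℝ] ℝ, l (f g).toAdd = 0 := by
    intro l
    let ρ : H →* Matrix (Fin 2) (Fin 2) ℝ :=
      { toFun := fun h => !![1, l (f h).toAdd; 0, 1]
        map_one' := by
          rw [map_one, toAdd_one, map_zero, Matrix.one_fin_two]
        map_mul' := by
          intro a b
          rw [map_mul, toAdd_mul, map_add, Matrix.mul_fin_two]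
          simp [add_comm] }
    have h1 := hV.2 H 2 (by omega) ℝ ρ
    by_contra hne
    have hinj : Function.Injective (fun k : ℕ => ρ (g ^ k)) := by
      intro a b hab
      have h2 : l (f (g ^ a)).toAdd = l (f (g ^ b)).toAdd := by
        have h3 := congrFun (congrFun hab 0) 1
        simpa [ρ] using h3
      rw [map_pow f, map_pow f, toAdd_pow, toAdd_pow, map_nsmul, map_nsmul, nsmul_eq_mul,
        nsmul_eq_mul] at h2
      exact_mod_cast mul_right_cancel₀ hne h2
    exact Set.infinite_range_of_injective hinj (h1.subset (by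
      rintro _ ⟨k, rfl⟩
      exact ⟨_, rfl⟩))
  have h4 : (f g).toAdd = 0 := (Module.forall_dual_apply_eq_zero_iff ℝ (f g).toAdd).1 key
  exact h4

end Pool.Agent.N829.PR
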