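import Pool.Agent.N829.PR.SLn
import Pool.Agent.N702.CP.BND
import Pool.Agent.N702.CP.CEN
import Pool.Agent.N702.CP.GEN

/-!
# Representations of degree `< n` of finite index subgroups of `SL_n(ℤ)`
-/

set_option autoImplicit false

namespace Pool.Agent.N829.PR

open Module Matrix Pool.Agent.H185.ZM

open Pool.Agent.N702.CP (SLZ)

variable {n : ℕ}

lemma el_eq {i j : Fin n} (h : i ≠ j) (k : ℤ) : Pool.Agent.N702.CP.el i j h k = el h k :=
  Subtype.ext rfl

lemma el_npow {i j : Fin n} (h : i ≠ j) (k : ℤ) (c : ℕ) : el h (k * c) = (el h k) ^ c := by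
  induction c with
  | zero => rw [Nat.cast_zero, mul_zero, _root_.pow_zero]; exact el_zero h
  | succ c ih => rw [_root_.pow_succ, ← ih, ← el_add]; push_cast; ring_nf

section closed

variable {F : Type*} [Field F] [IsAlgClosed F] {V : Type*} [AddCommGroup V] [Module F V]
  [FiniteDimensional F V]

theorem virt_closed (hn : 3 ≤ n) (hd : finrank F V < n) (Γ : Subgroup (SLZ n)) (k : ℕ)
    (hΓ : ∀ g : SLZ n, g ^ k ∈ Γ) (r : Γ →* Module.End F V) {i j : Fin n} (hij : i ≠ j)
    (y : Γ) (hy : (y : SLZ n) = el hij ((k : ℤ) * k * n.factorial)) : r y = 1 := by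
  classical
  let κ := {l : Fin n // l ≠ i ∧ l ≠ j}
  have hcard : Fintype.card κ + 2 = n := by
    have h1 : Fintype.card κ = ((Finset.univ.erase i).erase j : Finset (Fin n)).card := by
      rw [Fintype.card_subtype]
      congr 1
      ext l
      simp [and_comm]
    rw [h1, Finset.card_erase_of_mem (by simp [hij.symm]), Finset.card_erase_of_mem (by simp)]
    simp
    have := i.2
    have h2 : i.1 ≠ j.1 := fun h => hij (Fin.ext h)
    have := j.2
    omega
  have hmem : ∀ {a b : Fin n} (hab : a ≠ b) (c : ℕ), el hab ((k : ℤ) * c) ∈ Γ := by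
    intro a b hab c
    rw [el_npow]
    apply Γ.pow_mem
    have h1 := hΓ (el hab (1 : ℤ))
    rw [← el_npow, one_mul] at h1
    exact h1
  have hmem1 : ∀ {a b : Fin n} (hab : a ≠ b), el hab (k : ℤ) ∈ Γ := by
    intro a b hab
    have := hmem hab 1
    rwa [Nat.cast_one, mul_one] at this
  have hmul : ∀ (x y : Γ) (v : V), r x (r y v) = r (x * y) v := by
    intro x y v
    rw [map_mul, Module.End.mul_apply]
  let A : κ → Γ := fun l => ⟨el l.2.1.symm (k : ℤ), hmem1 _⟩
  let B : κ → Γ := fun l => ⟨el l.2.2 (k : ℤ), hmem1 _⟩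
  let C : Γ := ⟨el hij ((k : ℤ) * k), hmem hij k⟩
  have hABC : ∀ l, A l * B l = C * (B l * A l) := by
    intro l
    apply Subtype.ext
    exact el_comm l.2.1.symm l.2.2 hij _ _
  have hs : Hs (fun l : κ => r (A l)) (fun l : κ => r (B l)) (r C) := by
    refine ⟨?_, ?_, ?_, ?_, ?_, ?_, ?_, ?_⟩
    · intro l l' v
      rw [hmul, hmul]
      congr 2
      apply Subtype.ext
      exact el_commute l.2.1.symm l'.2.1.symm l.2.1 l'.2.1.symm _ _
    · intro l l' v
      rw [hmul, hmul]
      congr 2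
      apply Subtype.ext
      exact el_commute l.2.2 l'.2.2 l'.2.2.symm l.2.2 _ _
    · intro l l' hll v
      rw [hmul, hmul]
      congr 2
      apply Subtype.ext
      exact el_commute l.2.1.symm l'.2.2 (fun h => hll (Subtype.ext h)) hij _ _
    · intro l v
      rw [hmul, hmul, hmul, hABC, mul_assoc]
    · intro l v
      rw [hmul, hmul]
      congr 2
      apply Subtype.ext
      exact el_commute l.2.1.symm hij l.2.1 hij _ _
    · intro l v
      rw [hmul, hmul]
      congr 2
      apply Subtype.ext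
      exact el_commute l.2.2 hij hij.symm l.2.2 _ _
    · intro l v h
      exact inj_of_hom r _ v h
    · intro l v h
      exact inj_of_hom r _ v h
  obtain ⟨c, hc⟩ := scalar hs (by omega)
  obtain ⟨l, hl1, hl2⟩ := third hn i j
  have hdet : LinearMap.det (r C) = 1 := by
    have h1 := congrArg (fun z => LinearMap.det (r z)) (hABC ⟨l, hl1, hl2⟩)
    simp only [map_mul] at h1
    have hu : ∀ z : Γ, LinearMap.det (r z) ≠ 0 := by
      intro z hz
      have h2 : LinearMap.det (r z) * LinearMap.det (r z⁻¹) = 1 := by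
        rw [← map_mul, ← map_mul, mul_inv_cancel, map_one, map_one]
      rw [hz, zero_mul] at h2
      exact zero_ne_one h2
    have h3 := mul_ne_zero (hu (A ⟨l, hl1, hl2⟩)) (hu (B ⟨l, hl1, hl2⟩))
    have h4 : 1 * (LinearMap.det (r (A ⟨l, hl1, hl2⟩)) * LinearMap.det (r (B ⟨l, hl1, hl2⟩))) =
        LinearMap.det (r C) *
          (LinearMap.det (r (A ⟨l, hl1, hl2⟩)) * LinearMap.det (r (B ⟨l, hl1, hl2⟩))) := by
      rw [one_mul]
      exact h1.trans (by ring)
    exact (mul_right_cancel₀ h3 h4).symm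
  have hcC : r C = c • (1 : Module.End F V) := by
    ext v
    rw [hc]; rfl
  have hyC : y = C ^ n.factorial := by
    apply Subtype.ext
    rw [hy, el_npow]
    rfl
  rw [hyC, map_pow, hcC]
  rcases Nat.eq_zero_or_pos (finrank F V) with h0 | h0
  · have : Subsingleton V := Module.finrank_zero_iff.1 h0
    ext v
    exact Subsingleton.elim _ _
  · rw [hcC, LinearMap.det_smul, map_one, mul_one] at hdet
    obtain ⟨q, hq⟩ := Nat.dvd_factorial h0 hd.le
    rw [smul_pow, _root_.one_pow, hq, _root_.pow_mul, hdet, _root_.one_pow, one_smul]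

end closed

/-- representations by matrices over a field, and conjugates -/
theorem virt_conj (hn : 3 ≤ n) {m : ℕ} (hm : m < n) {F : Type*} [Field F] (Γ : Subgroup (SLZ n))
    [hN : Γ.Normal] (k : ℕ) (hΓ : ∀ g : SLZ n, g ^ k ∈ Γ) (r : Γ →* Matrix (Fin m) (Fin m) F)
    {i j : Fin n} (hij : i ≠ j) (x : SLZ n) (y : Γ)
    (hy : (y : SLZ n) = x * el hij ((k : ℤ) * k * n.factorial) * x⁻¹) : r y = 1 := by
  let K := AlgebraicClosure F
  let f : Matrix (Fin m) (Fin m) F →* Module.End K (Fin m → K) :=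
    ((Matrix.toLinAlgEquiv' (R := K) (n := Fin m)) :
      Matrix (Fin m) (Fin m) K →* Module.End K (Fin m → K)).comp
      ((algebraMap F K).mapMatrix (m := Fin m)).toMonoidHom
  have hf : Function.Injective f := by
    intro a b hab
    have h1 : (algebraMap F K).mapMatrix a = (algebraMap F K).mapMatrix b :=
      Matrix.toLinAlgEquiv'.injective hab
    exact Matrix.map_injective (algebraMap F K).injective h1
  have hz : el hij ((k : ℤ) * k * n.factorial) ∈ Γ := by
    have h1 := hN.conj_mem y y.2 x⁻¹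
    rw [hy] at h1
    simpa [mul_assoc] using h1
  have h2 := virt_closed (F := K) (V := Fin m → K) hn (by simpa using hm) Γ k hΓ
    ((f.comp r).comp (MulAut.conjNormal (H := Γ) x).toMonoidHom) hij ⟨_, hz⟩ rfl
  apply hf
  rw [map_one, ← h2]
  show f (r y) = f (r (MulAut.conjNormal x ⟨_, hz⟩))
  congr 2
  apply Subtype.ext
  rw [hy, MulAut.conjNormal_apply]

/-- finite quotients: a uniform bound -/
theorem virt_bound (n : ℕ) (hn : 3 ≤ n) (k : ℕ) (hk : 1 ≤ k) : ∃ B : ℕ,
    ∀ (Q : Type) [Group Q] [Finite Q] (θ : SLZ n →* Q), Function.Surjective θ →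
    ∀ (N : Subgroup Q) [N.Normal], (∀ q : Q, q ^ k ∈ N) → ∀ (m : ℕ), m < n →
    ∀ (F : Type) [Field F] (σ : N →* Matrix (Fin m) (Fin m) F), Nat.card (Set.range σ) ≤ B := by
  classical
  obtain ⟨B, hB⟩ := Pool.Agent.N702.CP.t_BND Pool.Agent.N702.CP.t_GEN
    (Pool.Agent.N702.CP.t_CEN Pool.Agent.N702.CP.t_GEN) n hn (k * k * n.factorial)
    (Nat.mul_pos (Nat.mul_pos hk hk) n.factorial_pos)
  refine ⟨B, ?_⟩
  intro Q _ _ θ hθ N _ hN m hm F _ σ
  have hΓ : ∀ g : SLZ n, g ^ k ∈ N.comap θ := by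
    intro g
    rw [Subgroup.mem_comap, map_pow]
    exact hN _
  let r : N.comap θ →* Matrix (Fin m) (Fin m) F := σ.comp (θ.subgroupComap N)
  set P : Subgroup Q := Subgroup.normalClosure
    {q | ∃ (i j : Fin n) (h : i ≠ j), q = θ (el h ((k : ℤ) * k * n.factorial))} with hP
  have hPle : P ≤ (σ.ker).map N.subtype := by
    rw [hP, Subgroup.normalClosure, Subgroup.closure_le]
    intro q hq
    obtain ⟨a, ⟨i, j, hij, rfl⟩, hconj⟩ := Group.mem_conjugatesOfSet_iff.1 hq
    obtain ⟨c, hc⟩ := isConj_iff.1 hconj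
    obtain ⟨x, rfl⟩ := hθ c
    have hel : el hij ((k : ℤ) * k * n.factorial) ∈ N.comap θ := by
      have h1 : el hij ((k : ℤ) * k * n.factorial) = ((el hij (1 : ℤ)) ^ k) ^ (k * n.factorial) := by
        rw [← el_npow, ← el_npow]
        congr 1
        push_cast
        ring
      rw [h1]
      exact Subgroup.pow_mem _ (hΓ _) _
    have hy : x * el hij ((k : ℤ) * k * n.factorial) * x⁻¹ ∈ N.comap θ :=
      (inferInstance : (N.comap θ).Normal).conj_mem _ hel x
    have h2 := virt_conj hn hm (N.comap θ) k hΓ r hij x ⟨_, hy⟩ rfl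
    have hq2 : q = θ (x * el hij ((k : ℤ) * k * n.factorial) * x⁻¹) := by
      rw [← hc, map_mul, map_mul, map_inv]
    refine ⟨⟨q, ?_⟩, ?_, rfl⟩
    · rw [hq2]; exact hy
    · show σ ⟨q, _⟩ = 1
      rw [← h2]
      show σ ⟨q, _⟩ = σ ⟨θ _, _⟩
      congr 1
      exact Subtype.ext hq2
  have hcard : Nat.card (Q ⧸ P) ≤ B := by
    refine hB (Q ⧸ P) ((QuotientGroup.mk' P).comp θ)
      ((QuotientGroup.mk'_surjective P).comp hθ) ?_
    intro i j hij
    show QuotientGroup.mk' P (θ _) = 1
    rw [QuotientGroup.mk'_apply, QuotientGroup.eq_one_iff, el_eq]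
    apply Subgroup.subset_normalClosure
    refine ⟨i, j, hij, ?_⟩
    push_cast
    rfl
  have hex : ∀ z : Set.range σ, ∃ y : N, σ y = z := fun z => z.2
  choose f hf using hex
  have hinj : Function.Injective (fun z : Set.range σ => (QuotientGroup.mk (f z : Q) : Q ⧸ P)) := by
    intro z z' hzz
    have h1 : ((f z : Q))⁻¹ * (f z' : Q) ∈ P := QuotientGroup.eq.1 hzz
    obtain ⟨w, hw, hw2⟩ := hPle h1
    have h3 : f z' = f z * w := by
      apply Subtype.ext
      rw [Subgroup.coe_mul]
      have h4 : (w : Q) = ((f z : Q))⁻¹ * (f z' : Q) := hw2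
      rw [h4]
      group
    apply Subtype.ext
    have h5 : σ w = 1 := hw
    rw [← hf z, ← hf z', h3, map_mul, h5, mul_one]
  exact (Nat.card_le_card_of_injective _ hinj).trans hcard

end Pool.Agent.N829.PR
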